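import Pool.Agent.T2h48.LP.Stm

/-! The number of the points is a birational invariant, in characteristic `p`. -/

set_option autoImplicit false
set_option linter.all false

namespace Pool.Agent.T2h48.LP

open Pool.Agent.R410.LW

section
variable {A B : Type} [CommRing A] [IsDomain A] [CommRing B] [IsDomain B] [Algebra A B]

theorem landauP_up {p d : ℕ} {L : Type} [Field L]
    (hinj : Function.Injective (algebraMap A B)) {a : A} (ha : a ≠ 0)
    (h : ∀ b : B, ∃ (n : ℕ) (c : A), algebraMap A B a ^ n * b = algebraMap A B c)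
    (hA : LandauP p A d L) : LandauP p B d L := by
  obtain ⟨s, hs, hA⟩ := hA
  refine ⟨algebraMap A B (a * s), (map_ne_zero_iff _ hinj).2 (mul_ne_zero ha hs), ?_⟩
  intro t ht hst
  obtain ⟨t', rfl⟩ := hst
  obtain ⟨n, z, hz⟩ := h t'
  have hz0 : z ≠ 0 := by
    rintro rfl
    rw [map_zero] at hz
    rcases mul_eq_zero.1 hz with h1 | h1
    · exact pow_ne_zero n ((map_ne_zero_iff _ hinj).2 ha) h1
    · rw [h1, mul_zero] at ht
      exact ht rfl
  obtain ⟨C, hC, g⟩ := hA (a * s * z) (mul_ne_zero (mul_ne_zero ha hs) hz0)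
    ⟨a * z, by ring⟩
  refine ⟨C, hC, ?_⟩
  intro k _ _ _
  have h1 := g k
  rw [← bir_card hinj ha h ⟨s * z, by ring⟩ k] at h1
  have h2 : Nat.card {φ : B →+* k // φ (algebraMap A B (a * s) * t') ≠ 0} =
      Nat.card {φ : B →+* k // φ (algebraMap A B (a * s * z)) ≠ 0} := by
    refine Nat.card_congr (Equiv.subtypeEquivRight fun φ => ?_)
    have e : algebraMap A B (a * s * z) = algebraMap A B a ^ n * (algebraMap A B (a * s) * t') := by
      rw [map_mul, ← hz]
      ring
    rw [e, map_mul φ (algebraMap A B a ^ n), map_pow, ne_eq, ne_eq, mul_eq_zero, not_or]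
    constructor
    · intro h3
      refine ⟨?_, h3⟩
      refine pow_ne_zero n fun h5 => h3 ?_
      rw [map_mul, map_mul, map_mul, h5, zero_mul, zero_mul]
    · exact fun h3 => h3.2
  rw [h2]
  exact h1

theorem landauP_down {p d : ℕ} {L : Type} [Field L]
    (hinj : Function.Injective (algebraMap A B)) {a : A} (ha : a ≠ 0)
    (h : ∀ b : B, ∃ (n : ℕ) (c : A), algebraMap A B a ^ n * b = algebraMap A B c)
    (hB : LandauP p B d L) : LandauP p A d L := by
  obtain ⟨s, hs, hB⟩ := hB
  obtain ⟨n, c, hc⟩ := h s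
  have hc0 : c ≠ 0 := by
    rintro rfl
    rw [map_zero] at hc
    rcases mul_eq_zero.1 hc with h1 | h1
    · exact pow_ne_zero n ((map_ne_zero_iff _ hinj).2 ha) h1
    · exact hs h1
  refine ⟨a * c, mul_ne_zero ha hc0, ?_⟩
  intro t ht hst
  obtain ⟨z, rfl⟩ := hst
  obtain ⟨C, hC, g⟩ := hB (algebraMap A B (a * c * z)) ((map_ne_zero_iff _ hinj).2 ht)
    ⟨algebraMap A B a ^ n * algebraMap A B (a * z), by
      rw [map_mul, map_mul, ← hc, map_mul]
      ring⟩
  refine ⟨C, hC, ?_⟩
  intro k _ _ _
  have h1 := g k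
  rwa [bir_card hinj ha h ⟨c * z, by ring⟩ k] at h1

end

/-- **Birational invariance** -/
theorem transferP {p : ℕ} {A B M : Type} [CommRing A] [IsDomain A] [CommRing B] [IsDomain B] [Field M]
    [Algebra A M] [IsFractionRing A M] [Algebra B M] [IsFractionRing B M] [Algebra.FiniteType ℤ A]
    [Algebra.FiniteType ℤ B] {d : ℕ} {L : Type} [Field L] (hA : LandauP p A d L) :
    LandauP p B d L := by
  classical
  let fA : A →ₐ[ℤ] M := (algebraMap A M).toIntAlgHom
  let fB : B →ₐ[ℤ] M := (algebraMap B M).toIntAlgHom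
  let C : Subalgebra ℤ M := fA.range ⊔ fB.range
  have hAfg : fA.range.FG := by
    rw [← Algebra.map_top]
    exact ((Algebra.FiniteType.out : (⊤ : Subalgebra ℤ A).FG)).map fA
  have hBfg : fB.range.FG := by
    rw [← Algebra.map_top]
    exact ((Algebra.FiniteType.out : (⊤ : Subalgebra ℤ B).FG)).map fB
  have hCfg : C.FG := hAfg.sup hBfg
  have hCft : Algebra.FiniteType ℤ C := C.fg_iff_finiteType.1 hCfg
  let _ : Algebra A C := ((algebraMap A M).codRestrict C.toSubring fun x =>
    (le_sup_left : fA.range ≤ C) ⟨x, rfl⟩).toAlgebra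
  let _ : Algebra B C := ((algebraMap B M).codRestrict C.toSubring fun x =>
    (le_sup_right : fB.range ≤ C) ⟨x, rfl⟩).toAlgebra
  have hAC : ∀ x : A, ((algebraMap A C x : C) : M) = algebraMap A M x := fun x => rfl
  have hBC : ∀ x : B, ((algebraMap B C x : C) : M) = algebraMap B M x := fun x => rfl
  have iA : Function.Injective (algebraMap A C) := by
    intro x y h
    apply IsFractionRing.injective A M
    rw [← hAC, ← hAC, h]
  have iB : Function.Injective (algebraMap B C) := by
    intro x y h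
    apply IsFractionRing.injective B M
    rw [← hBC, ← hBC, h]
  have : Algebra.FiniteType A C := Algebra.FiniteType.of_restrictScalars_finiteType ℤ A C
  have : Algebra.FiniteType B C := Algebra.FiniteType.of_restrictScalars_finiteType ℤ B C
  obtain ⟨a, ha0, ha⟩ := pow_den (A := A) (B := C) fun c => by
    obtain ⟨x, y, hy, hxy⟩ := IsFractionRing.div_surjective (A := A) (c : M)
    have hy0 : y ≠ 0 := nonZeroDivisors.ne_zero hy
    refine ⟨y, hy0, x, ?_⟩
    apply Subtype.ext
    show ((algebraMap A C y : C) : M) * (c : M) = _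
    rw [hAC, hAC, ← hxy, mul_div_cancel₀]
    exact (map_ne_zero_iff _ (IsFractionRing.injective A M)).2 hy0
  obtain ⟨b, hb0, hb⟩ := pow_den (A := B) (B := C) fun c => by
    obtain ⟨x, y, hy, hxy⟩ := IsFractionRing.div_surjective (A := B) (c : M)
    have hy0 : y ≠ 0 := nonZeroDivisors.ne_zero hy
    refine ⟨y, hy0, x, ?_⟩
    apply Subtype.ext
    show ((algebraMap B C y : C) : M) * (c : M) = _
    rw [hBC, hBC, ← hxy, mul_div_cancel₀]
    exact (map_ne_zero_iff _ (IsFractionRing.injective B M)).2 hy0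
  exact landauP_down iB hb0 hb (landauP_up iA ha0 ha hA)


theorem t_BIR : S_BIR := by
  intro p _ A B M _ _ _ _ _ _ _ _ _ _ _ d L _ hA
  exact transferP (M := M) hA

end Pool.Agent.T2h48.LP
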