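import Pool.Agent.T2h48.LP.Stm

set_option autoImplicit false
set_option linter.all false
set_option maxHeartbeats 1000000
set_option synthInstance.maxHeartbeats 400000

namespace Pool.Agent.T2h48.LP

open Pool.Agent.R410.LW

theorem fg_subP {p : ℕ} [Fact p.Prime] {M : Type} [Field M] [Algebra (ZMod p) M] (T : Finset M)
    (F : IntermediateField (ZMod p) M)
    (hF : F = IntermediateField.adjoin (ZMod p) (T : Set M))
    (F₁ : IntermediateField F M) [FiniteDimensional F F₁] : FG F₁ := by
  classical
  let b := Module.finBasis F F₁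
  have hT : ∀ t ∈ T, t ∈ F := fun t ht => by
    rw [hF]
    exact IntermediateField.subset_adjoin (ZMod p) _ ht
  let g : {t // t ∈ T} → F₁ := fun t => algebraMap F F₁ ⟨t.1, hT t.1 t.2⟩
  refine ⟨Finset.univ.image g ∪ Finset.univ.image b, ?_⟩
  set C := Subfield.closure ((Finset.univ.image g ∪ Finset.univ.image b : Finset F₁) : Set F₁) with hC
  have hFC : ∀ c : F, algebraMap F F₁ c ∈ C := by
    rintro ⟨c, hc⟩
    have key : ∀ z : M, z ∈ IntermediateField.adjoin (ZMod p) (T : Set M) → ∀ (hz : z ∈ F),
        algebraMap F F₁ ⟨z, hz⟩ ∈ C := by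
      intro z hz'
      induction hz' using IntermediateField.adjoin_induction with
      | mem z hzT =>
        intro hz
        apply Subfield.subset_closure
        rw [Finset.coe_union]
        left
        rw [Finset.coe_image]
        exact ⟨⟨z, hzT⟩, Finset.mem_coe.2 (Finset.mem_univ _), rfl⟩
      | algebraMap q =>
        intro hz
        obtain ⟨n, rfl⟩ := ZMod.natCast_zmod_surjective q
        have h1 : algebraMap F F₁ ⟨algebraMap (ZMod p) M (n : ZMod p), hz⟩ = ((n : ℕ) : F₁) := by
          rw [← map_natCast (algebraMap F F₁) n]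
          congr 1
          apply Subtype.ext
          show algebraMap (ZMod p) M (n : ZMod p) = _
          rw [map_natCast]
          rfl
        rw [h1]
        exact natCast_mem C n
      | add x y hx hy h1 h2 =>
        intro hz
        rw [← hF] at hx hy
        exact add_mem (h1 hx) (h2 hy)
      | inv x hx h1 =>
        intro hz
        rw [← hF] at hx
        exact inv_mem (h1 hx)
      | mul x y hx hy h1 h2 =>
        intro hz
        rw [← hF] at hx hy
        exact mul_mem (h1 hx) (h2 hy)
    exact key c (hF ▸ hc) hc
  rw [eq_top_iff]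
  intro z _
  rw [← b.sum_repr z]
  refine sum_mem fun i _ => ?_
  rw [Algebra.smul_def]
  refine mul_mem (hFC _) (Subfield.subset_closure ?_)
  rw [Finset.coe_union]
  right
  rw [Finset.coe_image]
  exact ⟨i, Finset.mem_coe.2 (Finset.mem_univ _), rfl⟩



theorem t_FGS : S_FGS := by
  intro p _ M _ _ T F hF F₁ _
  exact fg_subP T F hF F₁

end Pool.Agent.T2h48.LP
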