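import Pool.Agent.T2h48.LP.Stm

set_option autoImplicit false
set_option linter.all false
set_option maxHeartbeats 1000000

namespace Pool.Agent.T2h48.LP

open Pool.Agent.T2h48.DW MvPolynomial

namespace Form

theorem asy_congr {p : ℕ} {ν μ : (k : Type) → [Field k] → [Finite k] → ℕ}
    (h : ∀ (k : Type) [Field k] [Finite k], ν k = μ k) (hμ : AsyP p μ) : AsyP p ν := by
  obtain ⟨C, g⟩ := hμ
  refine ⟨C, fun k _ _ _ => ?_⟩
  rw [h k]
  exact g k

theorem hom_finite (A k : Type) [CommRing A] [Algebra.FiniteType ℤ A] [Field k] [Finite k] :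
    Finite (A →+* k) := by
  obtain ⟨S, hS⟩ := (inferInstance : Algebra.FiniteType ℤ A).out
  refine Finite.of_injective (fun (φ : A →+* k) (x : S) => φ x) ?_
  intro φ φ' h
  have h2 : φ.toIntAlgHom = φ'.toIntAlgHom := by
    refine AlgHom.ext_of_adjoin_eq_top hS fun x hx => ?_
    exact congrFun h ⟨x, hx⟩
  refine RingHom.ext fun x => ?_
  exact DFunLike.congr_fun h2 x

theorem card_split {α : Type} [Finite α] (p q r : α → Prop) (h1 : ∀ x, p x ↔ q x ∨ r x)
    (h2 : ∀ x, ¬ (q x ∧ r x)) :
    Nat.card {x // p x} = Nat.card {x // q x} + Nat.card {x // r x} := by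
  classical
  have e1 : Nat.card {x // p x} = Set.ncard {x | p x} := rfl
  have e2 : Nat.card {x // q x} = Set.ncard {x | q x} := rfl
  have e3 : Nat.card {x // r x} = Set.ncard {x | r x} := rfl
  rw [e1, e2, e3, ← Set.ncard_union_eq]
  · congr 1
    ext x
    exact h1 x
  · rw [Set.disjoint_left]
    intro x hx hx'
    exact h2 x ⟨hx, hx'⟩

/-- truth of a formula at a homomorphism from the polynomial ring -/
def HR {F : Type} [CommRing F] {n : ℕ} {k : Type} [CommRing k] :
    QF F n → (MvPolynomial (Fin n) F →+* k) → Prop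
  | QF.eq f, x => x f = 0
  | QF.neg φ, x => ¬ HR φ x
  | QF.and φ ψ, x => HR φ x ∧ HR ψ x

/-- the number of the points of locally closed sets satisfying `G` has an asymptotic form -/
def Good (p : ℕ) {F : Type} [Field F] {n : ℕ}
    (G : (k : Type) → [Field k] → (MvPolynomial (Fin n) F →+* k) → Prop) : Prop :=
  ∀ (I : Ideal (MvPolynomial (Fin n) F)) (t : MvPolynomial (Fin n) F),
    AsyP p (fun k _ _ => Nat.card {x : MvPolynomial (Fin n) F →+* k //
      (∀ f ∈ I, x f = 0) ∧ x t ≠ 0 ∧ G k x})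

theorem ft_int_of {B : Type} [CommRing B] (inst : Algebra ℤ B)
    (h : @Algebra.FiniteType ℤ B _ _ inst) : @Algebra.FiniteType ℤ B _ _ (Ring.toIntAlgebra B) := by
  have : inst = Ring.toIntAlgebra B := Subsingleton.elim _ _
  rwa [this] at h

theorem finiteType_int {F : Type} [Field F] [Finite F] (n : ℕ) :
    @Algebra.FiniteType ℤ (MvPolynomial (Fin n) F) _ _ (Ring.toIntAlgebra _) := by
  have h1 : Algebra.FiniteType ℤ F := by
    have : Module.Finite ℤ F := Module.Finite.of_finite
    infer_instance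
  have h2 : Algebra.FiniteType F (MvPolynomial (Fin n) F) := inferInstance
  exact ft_int_of _ (Algebra.FiniteType.trans h1 h2)

theorem good_true (hR : S_RING) (p : ℕ) [Fact p.Prime] {F : Type} [Field F] [Finite F] (n : ℕ) :
    Good p (F := F) (n := n) (fun _ _ _ => True) := by
  intro I t
  have hft := finiteType_int (F := F) n
  let A := MvPolynomial (Fin n) F ⧸ I
  have hftA : @Algebra.FiniteType ℤ A _ _ (Ring.toIntAlgebra _) := by
    let g : @AlgHom ℤ (MvPolynomial (Fin n) F) A _ _ _ (Ring.toIntAlgebra _) (Ring.toIntAlgebra _) :=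
      (Ideal.Quotient.mk I).toIntAlgHom
    exact @Algebra.FiniteType.of_surjective ℤ (MvPolynomial (Fin n) F) A _ _ _
      (Ring.toIntAlgebra _) (Ring.toIntAlgebra _) hft g Ideal.Quotient.mk_surjective
  refine asy_congr ?_ (@hR p _ A _ hftA (Ideal.Quotient.mk I t))
  intro k _ _
  refine Nat.card_congr ⟨fun x => ⟨Ideal.Quotient.lift I x.1 x.2.1, by
      rw [Ideal.Quotient.lift_mk]; exact x.2.2.1⟩,
    fun y => ⟨y.1.comp (Ideal.Quotient.mk I), fun f hf => by
      rw [RingHom.comp_apply, Ideal.Quotient.eq_zero_iff_mem.2 hf, map_zero], y.2, trivial⟩, ?_, ?_⟩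
  · intro x
    apply Subtype.ext
    refine RingHom.ext fun f => ?_
    exact Ideal.Quotient.lift_mk I x.1 x.2.1
  · intro y
    apply Subtype.ext
    apply Ideal.Quotient.ringHom_ext
    refine RingHom.ext fun f => ?_
    simp

theorem good_qf (hadd : S_ADD) (p : ℕ) [Fact p.Prime] {F : Type} [Field F] [Finite F] {n : ℕ}
    (φ : QF F n) :
    ∀ G : (k : Type) → [Field k] → (MvPolynomial (Fin n) F →+* k) → Prop, Good p G →
      Good p (fun k _ x => HR φ x ∧ G k x) ∧ Good p (fun k _ x => ¬ HR φ x ∧ G k x) := by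
  induction φ with
  | eq f =>
    intro G hG
    constructor
    · intro I t
      refine asy_congr ?_ (hG (I ⊔ Ideal.span {f}) t)
      intro k _ _
      refine Nat.card_congr (Equiv.subtypeEquivRight fun x => ?_)
      have h1 : (∀ g ∈ I ⊔ Ideal.span {f}, x g = 0) ↔ (∀ g ∈ I, x g = 0) ∧ x f = 0 := by
        constructor
        · intro h
          exact ⟨fun g hg => h g (Ideal.mem_sup_left hg),
            h f (Ideal.mem_sup_right (Ideal.mem_span_singleton_self f))⟩
        · rintro ⟨h1, h2⟩ g hg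
          have h3 : I ⊔ Ideal.span {f} ≤ RingHom.ker x := by
            rw [sup_le_iff]
            refine ⟨fun y hy => h1 y hy, ?_⟩
            rw [Ideal.span_le, Set.singleton_subset_iff]
            exact h2
          exact h3 hg
      rw [h1]
      show _ ∧ _ ∧ (x f = 0 ∧ G k x) ↔ _
      tauto
    · intro I t
      refine asy_congr ?_ (hG I (t * f))
      intro k _ _
      refine Nat.card_congr (Equiv.subtypeEquivRight fun x => ?_)
      rw [map_mul, mul_ne_zero_iff]
      show _ ∧ _ ∧ (¬ x f = 0 ∧ G k x) ↔ _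
      tauto
  | neg φ ih =>
    intro G hG
    obtain ⟨h1, h2⟩ := ih G hG
    refine ⟨h2, ?_⟩
    intro I t
    refine asy_congr ?_ (h1 I t)
    intro k _ _
    refine Nat.card_congr (Equiv.subtypeEquivRight fun x => ?_)
    show _ ∧ _ ∧ (¬ ¬ HR φ x ∧ G k x) ↔ _
    rw [not_not]
  | and φ ψ ih1 ih2 =>
    intro G hG
    obtain ⟨h1, h2⟩ := ih1 G hG
    obtain ⟨h3, h4⟩ := ih2 _ h1
    constructor
    · intro I t
      refine asy_congr ?_ (h3 I t)
      intro k _ _
      refine Nat.card_congr (Equiv.subtypeEquivRight fun x => ?_)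
      show _ ∧ _ ∧ ((HR φ x ∧ HR ψ x) ∧ G k x) ↔ _
      tauto
    · intro I t
      refine asy_congr ?_ (hadd p _ _ (h2 I t) (h4 I t))
      intro k _ _
      have hfin : Finite (MvPolynomial (Fin n) F →+* k) :=
        @hom_finite (MvPolynomial (Fin n) F) k _ (finiteType_int n) _ _
      refine card_split _ _ _ ?_ ?_
      · intro x
        show _ ∧ _ ∧ (¬ (HR φ x ∧ HR ψ x) ∧ G k x) ↔ _
        tauto
      · intro x
        tauto

theorem hr_aeval {F : Type} [Field F] {n : ℕ} {K : Type} [Field K] [Algebra F K] (φ : QF F n)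
    (τ : K →+* K) (x : Fin n → K) (z : MvPolynomial (Fin n) F →+* K)
    (hz : ∀ f, z f = τ (aeval x f)) : HR φ z ↔ φ.Holds x := by
  induction φ with
  | eq f =>
    show z f = 0 ↔ aeval x f = 0
    rw [hz, map_eq_zero]
  | neg φ ih =>
    show ¬ HR φ z ↔ ¬ φ.Holds x
    rw [ih]
  | and φ ψ ih1 ih2 =>
    show HR φ z ∧ HR ψ z ↔ φ.Holds x ∧ ψ.Holds x
    rw [ih1, ih2]

theorem exists_lift (p : ℕ) [Fact p.Prime] {F K : Type} [Field F] [Field K] [Finite K]
    [CharP F p] [CharP K p] [Algebra F K] (ψ : F →+* K) :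
    ∃ τ : K →+* K, Function.Bijective τ ∧ ∀ x, τ (algebraMap F K x) = ψ x := by
  let _ : Algebra (ZMod p) F := ZMod.algebra F p
  let _ : Algebra (ZMod p) K := ZMod.algebra K p
  have hst : IsScalarTower (ZMod p) F K := IsScalarTower.of_algebraMap_eq' (RingHom.ext_zmod _ _)
  let ψ' : F →ₐ[ZMod p] K := AlgHom.mk ψ (fun r =>
    RingHom.congr_fun (RingHom.ext_zmod (ψ.comp (algebraMap (ZMod p) F)) (algebraMap (ZMod p) K)) r)
  refine ⟨(ψ'.liftNormal K : K →+* K), Finite.injective_iff_bijective.1 (RingHom.injective _), ?_⟩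
  intro x
  exact ψ'.liftNormal_commutes K x

theorem card_hom (p : ℕ) [Fact p.Prime] {F K : Type} [Field F] [Finite F] [Field K] [Finite K]
    [CharP F p] [CharP K p] [Algebra F K] : Nat.card (F →+* K) = Nat.card (F →+* F) := by
  let _ : Algebra (ZMod p) F := ZMod.algebra F p
  let _ : Algebra (ZMod p) K := ZMod.algebra K p
  have hst : IsScalarTower (ZMod p) F K := IsScalarTower.of_algebraMap_eq' (RingHom.ext_zmod _ _)
  symm
  refine Nat.card_congr (Equiv.ofBijective (fun σ : F →+* F => (algebraMap F K).comp σ) ⟨?_, ?_⟩)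
  · intro σ σ' h
    refine RingHom.ext fun x => ?_
    exact (algebraMap F K).injective (RingHom.congr_fun h x)
  · intro ψ
    obtain ⟨τ, -, hτ⟩ := exists_lift p ψ
    let τ' : K →ₐ[ZMod p] K := AlgHom.mk τ (fun r =>
      RingHom.congr_fun (RingHom.ext_zmod (τ.comp (algebraMap (ZMod p) K)) (algebraMap (ZMod p) K)) r)
    refine ⟨(τ'.restrictNormal F : F →+* F), RingHom.ext fun x => ?_⟩
    have := τ'.restrictNormal_commutes F x
    rw [RingHom.comp_apply]
    exact this.trans (hτ x)

theorem card_fibre (p : ℕ) [Fact p.Prime] {F K : Type} [Field F] [Finite F] [Field K] [Finite K]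
    [CharP F p] [CharP K p] [Algebra F K] {n : ℕ} (φ : QF F n) (ψ : F →+* K) :
    Nat.card {z : {z : MvPolynomial (Fin n) F →+* K // HR φ z} // z.1.comp C = ψ} =
      Nat.card {x : Fin n → K // φ.Holds x} := by
  obtain ⟨τ, hτ, hτψ⟩ := exists_lift p ψ
  have hz : ∀ x : Fin n → K, ∀ f : MvPolynomial (Fin n) F,
      (τ.comp (aeval x : MvPolynomial (Fin n) F →ₐ[F] K).toRingHom) f = τ (aeval x f) :=
    fun x f => rfl
  symm
  refine Nat.card_congr (Equiv.ofBijective (fun x : {x : Fin n → K // φ.Holds x} =>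
    (⟨⟨τ.comp (aeval x.1 : MvPolynomial (Fin n) F →ₐ[F] K).toRingHom,
      (hr_aeval φ τ x.1 _ (hz x.1)).2 x.2⟩, by
        refine RingHom.ext fun c => ?_
        rw [RingHom.comp_apply, hz, aeval_C, hτψ]⟩ :
      {z : {z : MvPolynomial (Fin n) F →+* K // HR φ z} // z.1.comp C = ψ})) ⟨?_, ?_⟩)
  · intro x y h
    apply Subtype.ext
    funext i
    have h1 := congrArg (fun w => w.1.1 (X i)) h
    simp only at h1
    rw [hz, hz, aeval_X, aeval_X] at h1
    exact hτ.1 h1
  · rintro ⟨⟨z, hz1⟩, hz2⟩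
    choose g hg using hτ.2
    have hzz : ∀ f, z f = τ (aeval (fun i => g (z (X i))) f) := by
      intro f
      have : z = τ.comp (aeval (fun i => g (z (X i))) : MvPolynomial (Fin n) F →ₐ[F] K).toRingHom := by
        apply MvPolynomial.ringHom_ext
        · intro c
          rw [hz, aeval_C, hτψ, ← hz2]
          rfl
        · intro i
          rw [hz, aeval_X, hg]
      nth_rewrite 1 [this]
      rfl
    refine ⟨⟨fun i => g (z (X i)), (hr_aeval φ τ _ z hzz).1 hz1⟩, ?_⟩
    apply Subtype.ext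
    apply Subtype.ext
    refine RingHom.ext fun f => ?_
    exact (hzz f).symm

theorem card_total (p : ℕ) [Fact p.Prime] {F K : Type} [Field F] [Finite F] [Field K] [Finite K]
    [CharP F p] [CharP K p] [Algebra F K] {n : ℕ} (φ : QF F n) :
    Nat.card {z : MvPolynomial (Fin n) F →+* K // HR φ z} =
      Nat.card (F →+* F) * Nat.card {x : Fin n → K // φ.Holds x} := by
  classical
  have hfin : Finite (MvPolynomial (Fin n) F →+* K) :=
    @hom_finite (MvPolynomial (Fin n) F) K _ (finiteType_int n) _ _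
  have hfin2 : Finite (F →+* K) := Finite.of_injective (fun (φ : F →+* K) (x : F) => φ x) fun a b h =>
    RingHom.ext fun x => congrFun h x
  have : Fintype (F →+* K) := Fintype.ofFinite _
  rw [Nat.card_congr (Equiv.sigmaFiberEquiv
    (fun z : {z : MvPolynomial (Fin n) F →+* K // HR φ z} => z.1.comp C)).symm, Nat.card_sigma,
    Finset.sum_congr rfl (fun ψ _ => card_fibre p φ ψ), Finset.sum_const, Finset.card_univ,
    smul_eq_mul, ← card_hom p (F := F) (K := K), Nat.card_eq_fintype_card (α := F →+* K)]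

end Form

open Form in
theorem t_FORM (h1 : S_RING) (h2 : S_ADD) : S_FORM := by
  intro F _ _ n φ
  obtain ⟨p, hp⟩ := CharP.exists F
  have hpp : p.Prime := (CharP.char_is_prime_or_zero F p).resolve_right (CharP.char_ne_zero_of_finite F p)
  have : Fact p.Prime := ⟨hpp⟩
  obtain ⟨C, hC⟩ := (good_qf h2 p φ _ (good_true h1 p n)).1 ⊥ 1
  have hfin2 : Finite (F →+* F) := Finite.of_injective (fun (φ : F →+* F) (x : F) => φ x) fun a b h =>
    RingHom.ext fun x => congrFun h x
  have he : 1 ≤ Nat.card (F →+* F) := by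
    have : Nonempty (F →+* F) := ⟨RingHom.id F⟩
    exact Nat.card_pos
  refine ⟨Nat.card (F →+* F), C, he, ?_⟩
  intro K _ _ _
  have hpK : CharP K p := charP_of_injective_algebraMap (algebraMap F K).injective p
  obtain ⟨h, d, hh, hd, h0, hb⟩ := hC K
  have e : Nat.card {x : MvPolynomial (Fin n) F →+* K //
      (∀ f ∈ (⊥ : Ideal (MvPolynomial (Fin n) F)), x f = 0) ∧ x 1 ≠ 0 ∧ HR φ x ∧ True} =
      Nat.card (F →+* F) * Nat.card {x : Fin n → K // φ.Holds x} := by
    rw [← card_total p φ]
    refine Nat.card_congr (Equiv.subtypeEquivRight fun x => ?_)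
    constructor
    · exact fun h => h.2.2.1
    · intro h
      refine ⟨?_, ?_, h, trivial⟩
      · intro f hf
        rw [Ideal.mem_bot] at hf
        rw [hf, map_zero]
      · rw [map_one]
        exact one_ne_zero
  simp only at hb h0
  rw [e] at hb h0
  refine ⟨h, d, hh, hd, fun hz => ?_, hb⟩
  have := h0 hz
  rcases Nat.mul_eq_zero.1 this with h' | h'
  · omega
  · exact h'

end Pool.Agent.T2h48.LP
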