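import Pool.Agent.T2h48.LP.Stm

/-! The theorem of Lang and Weil in characteristic `p`. -/

set_option autoImplicit false
set_option linter.all false
set_option maxHeartbeats 4000000
set_option synthInstance.maxHeartbeats 400000

open Polynomial

namespace Pool.Agent.T2h48.LP

open Pool.Agent.R410.LW

/-- the coefficients -/
noncomputable def cf {F₁ : Type} [Field F₁] (p : F₁[X][X]) : Finset F₁ :=
  letI := Classical.decEq F₁
  (Finset.range (p.natDegree + 1)).biUnion fun i =>
    (Finset.range ((p.coeff i).natDegree + 1)).image fun l => (p.coeff i).coeff l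

theorem lift_cf {F₁ : Type} [Field F₁] (T : Finset F₁) (p : F₁[X][X]) (h : cf p ⊆ T) :
    p ∈ lifts (mapRingHom (algebraMap (Algebra.adjoin ℤ (T : Set F₁)) F₁)) := by
  classical
  rw [lifts_iff_coeff_lifts]
  intro i
  show p.coeff i ∈ Set.range (mapRingHom (algebraMap (Algebra.adjoin ℤ (T : Set F₁)) F₁))
  have h1 : p.coeff i ∈ lifts (algebraMap (Algebra.adjoin ℤ (T : Set F₁)) F₁) := by
    rw [lifts_iff_coeff_lifts]
    intro l
    by_cases hi : i ≤ p.natDegree
    · by_cases hl : l ≤ (p.coeff i).natDegree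
      · refine ⟨⟨(p.coeff i).coeff l, Algebra.subset_adjoin (h ?_)⟩, rfl⟩
        unfold cf
        rw [Finset.mem_biUnion]
        exact ⟨i, Finset.mem_range.2 (by omega), Finset.mem_image.2
          ⟨l, Finset.mem_range.2 (by omega), rfl⟩⟩
      · refine ⟨0, ?_⟩
        rw [map_zero, coeff_eq_zero_of_natDegree_lt (by omega)]
    · refine ⟨0, ?_⟩
      rw [map_zero, coeff_eq_zero_of_natDegree_lt (p := p) (by omega), coeff_zero]
  obtain ⟨p, hp⟩ := (lifts_iff_set_range _).1 h1
  exact ⟨p, hp⟩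

theorem landauP_zero (hBIR : S_BIR) {p : ℕ} [Fact p.Prime] {M : Type} [Field M] [Algebra (ZMod p) M]
    (hM : FG M) (h : Algebra.trdeg (ZMod p) M = 0) :
    ∃ (L : Type) (_ : Field L) (_ : Finite L), Nonempty (L →+* M) ∧ ∀ (A : Type) [CommRing A] [IsDomain A]
      [Algebra.FiniteType ℤ A] [Algebra A M] [IsFractionRing A M], LandauP p A 0 L := by
  have h1 : Algebra.IsAlgebraic (ZMod p) M := trdeg_eq_zero_iff.1 h
  have h2 : FiniteDimensional (ZMod p) M := finite_of_fg hM (ZMod p)
  have h3 : Finite M := Module.finite_of_finite (ZMod p)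
  refine ⟨M, inferInstance, h3, ⟨RingHom.id M⟩, ?_⟩
  intro A _ _ _ _ _
  have h4 : Algebra.FiniteType ℤ M := ⟨⟨(Set.toFinite (Set.univ : Set M)).toFinset, by
    rw [eq_top_iff]
    intro x _
    exact Algebra.subset_adjoin (by simp)⟩⟩
  have h5 : LandauP p M 0 M := by
    refine ⟨1, one_ne_zero, fun t ht _ => ⟨0, le_rfl, fun k _ _ _ => ?_⟩⟩
    have h6 : Nat.card {φ : M →+* k // φ t ≠ 0} = Nat.card (M →+* k) :=
      Nat.card_congr (Equiv.subtypeUnivEquiv fun φ => (map_ne_zero φ).2 ht)
    rw [h6]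
    simp
  exact hBIR p M A M 0 M h5

theorem landauP_succ (hSTR : S_STR) (hSTEP : S_STEP) (hBIR : S_BIR) (hSUB : S_SUB) (hFGS : S_FGS)
    {p : ℕ} [Fact p.Prime] {d : ℕ} (ih : ∀ (M : Type) [Field M] [Algebra (ZMod p) M], FG M →
      Algebra.trdeg (ZMod p) M = d → ∃ (L : Type) (_ : Field L) (_ : Finite L), Nonempty (L →+* M) ∧
        ∀ (A : Type) [CommRing A] [IsDomain A] [Algebra.FiniteType ℤ A] [Algebra A M]
          [IsFractionRing A M], LandauP p A d L)
    {M : Type} [Field M] [Algebra (ZMod p) M] (hM : FG M) (h : Algebra.trdeg (ZMod p) M = (d + 1 : ℕ)) :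
    ∃ (L : Type) (_ : Field L) (_ : Finite L), Nonempty (L →+* M) ∧ ∀ (A : Type) [CommRing A] [IsDomain A]
      [Algebra.FiniteType ℤ A] [Algebra A M] [IsFractionRing A M], LandauP p A (d + 1) L := by
  classical
  obtain ⟨T, x, hx, hal, hse⟩ := hSUB p M d hM h
  obtain ⟨F, hF⟩ : ∃ F, F = IntermediateField.adjoin (ZMod p) (T : Set M) := ⟨_, rfl⟩
  rw [← hF] at hx hal hse
  have hfin : FiniteDimensional (IntermediateField.adjoin F {x}) M := finite_of_fg hM _
  have hcp : CharP F p := charP_of_injective_algebraMap (algebraMap (ZMod p) F).injective p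
  obtain ⟨F₁, hF₁, θ, f, Om, iOm, hOm, aOm, hfm, hf0, hfirr, ⟨a₀, b₀, D₀, hD₀, hsep⟩, hker, hgen⟩ :=
    hSTR p F M x hx hfin hse
  have hFG : FG F₁ := hFGS p M T F hF F₁
  -- the transcendence degree
  have hx1 : Transcendental F₁ x := fun h1 => hx (h1.restrictScalars F)
  have hal1 : Algebra.IsAlgebraic (IntermediateField.adjoin F₁ {x}) M := by
    set N1 := IntermediateField.adjoin F {x} with hN1
    set N2 := IntermediateField.adjoin F₁ {x} with hN2
    have hle : N1 ≤ N2.restrictScalars F := by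
      rw [hN1, IntermediateField.adjoin_le_iff]
      exact IntermediateField.subset_adjoin F₁ {x}
    let _ : Algebra N1 N2 := ((algebraMap N1 M).codRestrict N2.toSubring fun z => hle z.2).toAlgebra
    have _ : IsScalarTower N1 N2 M := IsScalarTower.of_algebraMap_eq fun z => rfl
    exact Algebra.IsAlgebraic.tower_top (K := N1) N2
  have htr : Algebra.trdeg (ZMod p) F₁ = d := by
    have h1 := trdeg_add_eq (ZMod p) F₁ (A := M)
    rw [trdeg_one x hx1, h, Nat.cast_add, Nat.cast_one] at h1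
    exact Cardinal.add_one_inj.1 h1
  obtain ⟨L, iL, nL, ⟨jL⟩, hL⟩ := ih F₁ hFG htr
  refine ⟨L, iL, nL, ⟨(algebraMap F₁ M).comp jL⟩, ?_⟩
  intro A _ _ _ _ _
  -- the ring of coefficients
  obtain ⟨S, hS⟩ := hFG
  set S' : Finset F₁ := S ∪ (cf f ∪ cf a₀ ∪ cf b₀ ∪ cf (C D₀)) with hS'
  have hS'c : Subfield.closure (S' : Set F₁) = ⊤ := by
    rw [eq_top_iff, ← hS]
    refine Subfield.closure_mono ?_
    rw [hS', Finset.coe_union]
    exact Set.subset_union_left
  obtain ⟨hft, hfrac⟩ := closure_spec S' hS'c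
  set A₁ := Algebra.adjoin ℤ (S' : Set F₁) with hA₁
  have hlift : f ∈ lifts (mapRingHom (algebraMap A₁ F₁)) := lift_cf S' f (by rw [hS']; intro z hz; simp [hz])
  obtain ⟨aA, haA⟩ : ∃ aA : A₁[X][X], aA.map (mapRingHom (algebraMap A₁ F₁)) = a₀ :=
    (mem_lifts a₀).1 (lift_cf S' a₀ (by rw [hS']; intro z hz; simp [hz]))
  obtain ⟨bA, hbA⟩ : ∃ bA : A₁[X][X], bA.map (mapRingHom (algebraMap A₁ F₁)) = b₀ :=
    (mem_lifts b₀).1 (lift_cf S' b₀ (by rw [hS']; intro z hz; simp [hz]))
  obtain ⟨dA, hdA⟩ : ∃ dA : A₁[X][X], dA.map (mapRingHom (algebraMap A₁ F₁)) = C D₀ :=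
    (mem_lifts (C D₀)).1 (lift_cf S' (C D₀) (by rw [hS']; intro z hz; simp [hz]))
  obtain ⟨fA, hfA, hfAd, hfAm⟩ := lifts_and_natDegree_eq_and_monic hlift hfm
  have hmi : Function.Injective (mapRingHom (mapRingHom (algebraMap A₁ F₁))) :=
    Polynomial.map_injective _ (Polynomial.map_injective _ (IsFractionRing.injective A₁ F₁))
  have hsepA : Sep fA := by
    refine ⟨aA, bA, dA.coeff 0, ?_, ?_⟩
    · intro h0
      apply hD₀
      have h1 := congrArg (fun q : F₁[X][X] => q.coeff 0) hdA
      simp only [coeff_map, coeff_C_zero] at h1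
      rw [← h1, h0, map_zero]
    · apply hmi
      have h1 : dA = C (dA.coeff 0) := by
        apply hmi
        show dA.map _ = (C (dA.coeff 0)).map _
        rw [Polynomial.map_C, hdA]
        have h2 := congrArg (fun q : F₁[X][X] => q.coeff 0) hdA
        simp only [coeff_map, coeff_C_zero] at h2
        rw [h2]
      show (aA * fA + bA * derivative fA).map _ = (C (dA.coeff 0)).map _
      rw [← h1, hdA, Polynomial.map_add, Polynomial.map_mul, Polynomial.map_mul, ← derivative_map,
        haA, hbA, hfA, hsep]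
  have hirrA : Irreducible (fA.map (mapRingHom ((algebraMap F₁ Om).comp (algebraMap A₁ F₁)))) := by
    have h1 : fA.map (mapRingHom ((algebraMap F₁ Om).comp (algebraMap A₁ F₁))) =
        f.map (mapRingHom (algebraMap F₁ Om)) := by
      rw [← hfA, Polynomial.map_map, mapRingHom_comp]
    rw [h1]
    exact hfirr
  have hB := hSTEP p A₁ d L (hL A₁) F₁ Om fA hfAm (by rw [hfAd]; exact hf0) hsepA hirrA
  have hιO : Function.Injective ((algebraMap F₁ Om).comp (algebraMap A₁ F₁)) :=
    (algebraMap F₁ Om).injective.comp (IsFractionRing.injective A₁ F₁)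
  have hdomB : IsDomain (AdjoinRoot fA) := adj_domain hιO hfAm hirrA
  have hftB : Algebra.FiniteType ℤ (AdjoinRoot fA) := inferInstance
  -- the embedding
  set ι : A₁ →+* M := (algebraMap F₁ M).comp (algebraMap A₁ F₁) with hι
  have hmap : ∀ p : A₁[X][X], eval₂ (eval₂RingHom ι x) θ p =
      eval₂ (eval₂RingHom (algebraMap F₁ M) x) θ (p.map (mapRingHom (algebraMap A₁ F₁))) := by
    intro p
    rw [eval₂_map]
    congr 1
    apply Polynomial.ringHom_ext
    · intro c
      rw [coe_eval₂RingHom, eval₂_C, hι, RingHom.comp_apply, RingHom.comp_apply (eval₂RingHom _ _),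
        coe_mapRingHom, Polynomial.map_C, coe_eval₂RingHom, eval₂_C]
    · rw [coe_eval₂RingHom, eval₂_X, RingHom.comp_apply, coe_mapRingHom, Polynomial.map_X,
        coe_eval₂RingHom, eval₂_X]
  have hroot : eval₂ (eval₂RingHom ι x) θ fA = 0 := by
    rw [hmap, hker, hfA]
  let _ : Algebra (AdjoinRoot fA) M := (AdjoinRoot.lift (eval₂RingHom ι x) θ hroot).toAlgebra
  have halg : ∀ p, algebraMap (AdjoinRoot fA) M (AdjoinRoot.mk fA p) =
      eval₂ (eval₂RingHom ι x) θ p := fun p => AdjoinRoot.lift_mk hroot p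
  have hinjB : Function.Injective (algebraMap (AdjoinRoot fA) M) := by
    rw [injective_iff_map_eq_zero]
    intro b hb
    obtain ⟨p, rfl⟩ := AdjoinRoot.mk_surjective b
    rw [halg, hmap, hker, ← hfA] at hb
    rw [AdjoinRoot.mk_eq_zero]
    exact (Polynomial.map_dvd_map _
      (Polynomial.map_injective _ (IsFractionRing.injective A₁ F₁)) hfAm).1 hb
  have hfracB : IsFractionRing (AdjoinRoot fA) M := by
    refine frac_of_closure hinjB ?_
    set Cf := Subfield.closure (Set.range (algebraMap (AdjoinRoot fA) M)) with hCf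
    have hxC : x ∈ Cf := Subfield.subset_closure ⟨AdjoinRoot.mk fA (C X), by
      rw [halg, eval₂_C, coe_eval₂RingHom, eval₂_X]⟩
    have hθC : θ ∈ Cf := Subfield.subset_closure ⟨AdjoinRoot.mk fA X, by
      rw [halg, eval₂_X]⟩
    have hAC : ∀ a : A₁, ι a ∈ Cf := fun a => Subfield.subset_closure ⟨AdjoinRoot.mk fA (C (C a)), by
      rw [halg, eval₂_C, coe_eval₂RingHom, eval₂_C]⟩
    have hF₁C : ∀ z : F₁, (algebraMap F₁ M z) ∈ Cf := by
      intro z
      obtain ⟨a, b, -, rfl⟩ := IsFractionRing.div_surjective (A := A₁) z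
      rw [map_div₀]
      exact div_mem (hAC a) (hAC b)
    rw [eq_top_iff]
    intro z _
    have hz : z ∈ IntermediateField.adjoin F {x, θ} := by
      rw [hgen]
      trivial
    induction hz using IntermediateField.adjoin_induction with
    | mem z hz =>
      rcases hz with rfl | hz
      · exact hxC
      · rw [Set.mem_singleton_iff] at hz
        rw [hz]
        exact hθC
    | algebraMap q => exact hF₁C (algebraMap F F₁ q)
    | add x y _ _ h1 h2 => exact add_mem (h1 trivial) (h2 trivial)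
    | inv x _ h1 => exact inv_mem (h1 trivial)
    | mul x y _ _ h1 h2 => exact mul_mem (h1 trivial) (h2 trivial)
  have hftB' := ft_int _ hftB
  exact hBIR p (AdjoinRoot fA) A M (d + 1) L hB


theorem t_MAIN (h1 : S_STR) (h2 : S_STEP) (h3 : S_BIR) (h4 : S_SUB) (h5 : S_FGS) : S_MAIN := by
  intro p _ d
  induction d with
  | zero =>
    intro M _ _ hM h
    exact landauP_zero h3 hM (by simpa using h)
  | succ d ih =>
    intro M _ _ hM h
    exact landauP_succ h1 h2 h3 h4 h5 ih hM h

end Pool.Agent.T2h48.LP
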