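import Pool.Agent.T2h48.LP.Stm

/-! A monic irreducible separable polynomial in two variables remains irreducible over a purely
inseparable extension of the field of constants (PIRR). -/

set_option autoImplicit false
set_option linter.all false

namespace Pool.Agent.T2h48.LP

open Polynomial

/-- some power with exponent `p ^ n` of a polynomial lies in the image -/
theorem pirr_range {R S : Type} [CommRing R] [CommRing S] (p : ℕ) [Fact p.Prime] [CharP S p]
    (φ : R →+* S) (h : ∀ a : S, ∃ n : ℕ, ∀ m : ℕ, n ≤ m → a ^ p ^ m ∈ φ.range) (P : S[X]) :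
    ∃ n : ℕ, ∀ m : ℕ, n ≤ m → P ^ p ^ m ∈ (mapRingHom φ).range := by
  haveI : CharP S[X] p := inferInstance
  induction P using Polynomial.induction_on' with
  | add P Q hP hQ =>
    obtain ⟨n1, h1⟩ := hP
    obtain ⟨n2, h2⟩ := hQ
    refine ⟨max n1 n2, fun m hm => ?_⟩
    rw [add_pow_char_pow]
    exact add_mem (h1 m (le_trans (le_max_left _ _) hm)) (h2 m (le_trans (le_max_right _ _) hm))
  | monomial i a =>
    obtain ⟨n, hn⟩ := h a
    refine ⟨n, fun m hm => ?_⟩
    obtain ⟨b, hb⟩ := hn m hm
    refine ⟨monomial (i * p ^ m) b, ?_⟩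
    rw [coe_mapRingHom, Polynomial.map_monomial, hb, monomial_pow]

/-- a polynomial with `g` squarefree-type Bezout identity is not divisible by the square of a non-unit
divisor of a monic polynomial -/
theorem pirr_sq {k : Type} [Field k] {g u π : k[X][X]} (hu : u.Monic) (hπu : π ∣ u)
    (hπ : ¬ IsUnit π) (hs : Sep g) (h2 : π * π ∣ g) : False := by
  obtain ⟨a, b, D, hD, hab⟩ := hs
  obtain ⟨c, hc⟩ := h2
  have h3 : π ∣ derivative g := by
    rw [hc, derivative_mul, derivative_mul]
    exact dvd_add (Dvd.dvd.mul_right (dvd_add (dvd_mul_left _ _) (dvd_mul_right _ _)) _)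
      (Dvd.dvd.mul_right (dvd_mul_right _ _) _)
  have h4 : π ∣ g := ⟨π * c, by rw [hc, mul_assoc]⟩
  have h5 : π ∣ C D := by
    rw [← hab]
    exact dvd_add (h4.mul_left _) (h3.mul_left _)
  have hCD : (C D : k[X][X]) ≠ 0 := C_ne_zero.2 hD
  have h6 : π.natDegree ≤ 0 := by
    have := natDegree_le_of_dvd h5 hCD
    rwa [natDegree_C] at this
  have h7 : π = C (π.coeff 0) := eq_C_of_natDegree_le_zero h6
  obtain ⟨w, hw⟩ := hπu
  have h8 : π.coeff 0 * w.leadingCoeff = 1 := by
    have e := congrArg leadingCoeff hw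
    rw [leadingCoeff_mul, hu.leadingCoeff] at e
    rw [h7, leadingCoeff_C] at e
    rw [h7, coeff_C_zero]
    rw [h7, coeff_C_zero] at e
    exact e.symm
  apply hπ
  rw [h7]
  exact (IsUnit.of_mul_eq_one _ h8).map C

theorem t_PIRR : S_PIRR := by
  intro p _ K Om _ _ _ _ _ g hgm hgi hsep
  classical
  haveI hcO : CharP Om p := charP_of_injective_algebraMap (algebraMap K Om).injective p
  haveI : ExpChar K p := ExpChar.prime Fact.out
  set φ : K[X] →+* Om[X] := mapRingHom (algebraMap K Om) with hφ
  have hφi : Function.Injective φ := Polynomial.map_injective _ (algebraMap K Om).injective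
  have hφi2 : Function.Injective (mapRingHom φ) := Polynomial.map_injective _ hφi
  have hGm : (g.map φ).Monic := hgm.map φ
  have hsG : Sep (g.map φ) := by
    obtain ⟨a, b, D, hD, hab⟩ := hsep
    refine ⟨a.map φ, b.map φ, φ D, fun h => hD (hφi (by rw [h, map_zero])), ?_⟩
    rw [derivative_map, ← Polynomial.map_mul, ← Polynomial.map_mul, ← Polynomial.map_add, hab,
      Polynomial.map_C]
  have hr : ∀ P : Om[X][X], ∃ n : ℕ, ∀ m : ℕ, n ≤ m → P ^ p ^ m ∈ (mapRingHom φ).range := by
    apply pirr_range p φ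
    apply pirr_range p (algebraMap K Om)
    intro a
    obtain ⟨n, hn⟩ := IsPurelyInseparable.pow_mem K p a
    refine ⟨n, fun m hm => ?_⟩
    obtain ⟨l, rfl⟩ := Nat.exists_eq_add_of_le hm
    rw [pow_add, pow_mul]
    exact pow_mem hn _
  have hprime : Prime g := hgi.prime
  rw [hGm.irreducible_iff_natDegree]
  refine ⟨?_, ?_⟩
  · intro h1
    apply hgi.not_isUnit
    have : g = 1 := hφi2 (by rw [coe_mapRingHom, h1, Polynomial.map_one])
    rw [this]
    exact isUnit_one
  · intro u v hum hvm huv
    by_contra hcon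
    push Not at hcon
    obtain ⟨hu0, hv0⟩ := hcon
    have hu1 : u ≠ 1 := by
      rintro rfl
      exact hu0 natDegree_one
    have hv1 : v ≠ 1 := by
      rintro rfl
      exact hv0 natDegree_one
    obtain ⟨n1, h1⟩ := hr u
    obtain ⟨n2, h2⟩ := hr v
    obtain ⟨u', hu'⟩ := h1 (max n1 n2) (le_max_left _ _)
    obtain ⟨v', hv'⟩ := h2 (max n1 n2) (le_max_right _ _)
    set q := p ^ max n1 n2 with hq
    have hqpos : 0 < q := pow_pos (Nat.Prime.pos Fact.out) _
    have huv' : u' * v' = g ^ q := by
      apply hφi2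
      rw [map_mul, hu', hv', map_pow, coe_mapRingHom, ← mul_pow, huv]
    obtain ⟨i, hi, hass⟩ := (dvd_prime_pow hprime q).1 ⟨v', huv'.symm⟩
    have hu'm : u'.Monic := by
      have : (u'.map φ).Monic := by
        rw [← coe_mapRingHom, hu']
        exact hum.pow q
      exact monic_of_injective hφi this
    have hu'e : u' = g ^ i := eq_of_monic_of_associated hu'm (hgm.pow i) hass
    have huq : u ^ q = (u * v) ^ i := by
      rw [← hu', hu'e, map_pow, coe_mapRingHom, huv]
    have hi0 : i ≠ 0 := by
      rintro rfl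
      rw [pow_zero] at huq
      have e1 := congrArg natDegree huq
      rw [hum.natDegree_pow, natDegree_one] at e1
      exact hu0 ((Nat.mul_eq_zero.1 e1).resolve_left hqpos.ne')
    clear_value q
    have hiq : i ≠ q := by
      intro hiq
      rw [hiq, mul_pow] at huq
      have h3 : v ^ q = 1 := by
        have hne : u ^ q ≠ 0 := pow_ne_zero _ hum.ne_zero
        apply mul_left_cancel₀ hne
        rw [mul_one]
        exact huq.symm
      have e2 := congrArg natDegree h3
      rw [hvm.natDegree_pow, natDegree_one] at e2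
      exact hv0 ((Nat.mul_eq_zero.1 e2).resolve_left hqpos.ne')
    have hlt : i < q := lt_of_le_of_ne hi hiq
    have h4 : u ^ (q - i) = v ^ i := by
      have hne : u ^ i ≠ 0 := pow_ne_zero _ hum.ne_zero
      apply mul_left_cancel₀ hne
      rw [← pow_add, Nat.add_sub_cancel' hi, ← mul_pow, huq]
    have hunu : ¬ IsUnit u := fun h => hu1 (hum.eq_one_of_isUnit h)
    obtain ⟨π, hπ, hπu⟩ := WfDvdMonoid.exists_irreducible_factor hunu hum.ne_zero
    have hπv : π ∣ v := by
      apply hπ.prime.dvd_of_dvd_pow (n := i)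
      rw [← h4]
      exact dvd_pow hπu (by omega)
    apply pirr_sq hum hπu hπ.not_isUnit hsG
    rw [← huv]
    exact mul_dvd_mul hπu hπv

end Pool.Agent.T2h48.LP
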