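import Pool.Agent.T2h48.LP.Stm

/-! The inductive step, in characteristic `p`. -/

set_option autoImplicit false
set_option linter.all false
set_option maxHeartbeats 4000000
set_option synthInstance.maxHeartbeats 400000

open Polynomial

namespace Pool.Agent.T2h48.LP

open Pool.Agent.R410 Pool.Agent.R410.LW

theorem hom_le (L k : Type) [Field L] [Finite L] [Field k] [Finite k] :
    Nat.card (L →+* k) ≤ Nat.card L := by
  classical
  obtain ⟨g, hg⟩ := IsCyclic.exists_generator (α := Lˣ)
  have hL : 1 < Nat.card L := Finite.one_lt_card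
  set P : k[X] := X ^ Nat.card L - X with hP
  have hP0 : P ≠ 0 := FiniteField.X_pow_card_sub_X_ne_zero k hL
  have hPd : P.natDegree = Nat.card L := FiniteField.X_pow_card_sub_X_natDegree_eq k hL
  have := Fintype.ofFinite L
  let j : (L →+* k) → P.roots.toFinset := fun φ => ⟨φ g, by
    rw [Multiset.mem_toFinset, mem_roots hP0, IsRoot.def, hP, eval_sub, eval_pow, eval_X, ← map_pow,
      Nat.card_eq_fintype_card, FiniteField.pow_card, sub_self]⟩
  have hj : Function.Injective j := by
    intro φ φ' h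
    have h1 : φ g = φ' g := congrArg Subtype.val h
    refine RingHom.ext fun x => ?_
    by_cases hx : x = 0
    · rw [hx, map_zero, map_zero]
    · obtain ⟨i, hi⟩ := Subgroup.mem_zpowers_iff.1 (hg (Units.mk0 x hx))
      have h2 : x = (g : L) ^ i := by
        rw [← Units.val_zpow_eq_zpow_val, hi]
        rfl
      rw [h2, map_zpow₀, map_zpow₀, h1]
  have h1 := Nat.card_le_card_of_injective j hj
  refine h1.trans ?_
  rw [Nat.card_eq_fintype_card, Fintype.card_coe]
  exact (Multiset.toFinset_card_le _).trans ((card_roots' _).trans hPd.le)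

/-- **The inductive step** -/
theorem stepP {p : ℕ} [Fact p.Prime] {A : Type} [CommRing A] [IsDomain A] [Algebra.FiniteType ℤ A]
    {d : ℕ} {L : Type} [Field L] [Finite L] (hA : LandauP p A d L) {k₀ kb : Type} [Field k₀]
    [Algebra A k₀] [IsFractionRing A k₀] [Field kb] [Algebra k₀ kb] [IsAlgClosed kb] {f : A[X][X]}
    (hf : f.Monic) (hf0 : 0 < f.natDegree) (hsep : Sep f)
    (hirr : Irreducible (f.map (mapRingHom ((algebraMap k₀ kb).comp (algebraMap A k₀))))) :
    LandauP p (AdjoinRoot f) (d + 1) L := by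
  classical
  set ι : A →+* kb := (algebraMap k₀ kb).comp (algebraMap A k₀) with hι
  have hιi : Function.Injective ι := (algebraMap k₀ kb).injective.comp (IsFractionRing.injective A k₀)
  have hdom : IsDomain (AdjoinRoot f) := adj_domain hιi hf hirr
  obtain ⟨s, hs, hA⟩ := hA
  obtain ⟨D, hD, hDirr⟩ := bn_poly (k := k₀) (kb := kb) f hf hf0 hirr
  obtain ⟨a₁, b₁, D₁, hD₁, hab⟩ := hsep
  set l := D₁.leadingCoeff with hl
  have hl0 : l ≠ 0 := leadingCoeff_ne_zero.2 hD₁
  have hinj : Function.Injective (AdjoinRoot.of f) := by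
    have h0 : f.degree ≠ 0 := by
      intro h
      have h1 := natDegree_eq_of_degree_eq_some (n := 0) h
      omega
    exact AdjoinRoot.of.injective_of_degree_ne_zero h0
  have hCi : Function.Injective ((AdjoinRoot.of f).comp (C : A →+* A[X])) :=
    hinj.comp C_injective
  set t₀ := s * D * l with ht₀
  have ht₀0 : t₀ ≠ 0 := mul_ne_zero (mul_ne_zero hs hD) hl0
  refine ⟨AdjoinRoot.of f (C t₀), (map_ne_zero_iff _ hCi).2 ht₀0, ?_⟩
  intro t ht hst
  obtain ⟨T, rfl⟩ := AdjoinRoot.mk_surjective t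
  -- a nonzero multiple in the polynomial ring
  have hint : Algebra.IsIntegral A[X] (AdjoinRoot f) := by
    have := hf.finite_adjoinRoot
    infer_instance
  obtain ⟨a, ha0, c, hac⟩ : ∃ a : A[X], a ≠ 0 ∧ ∃ c : AdjoinRoot f,
      AdjoinRoot.of f a = AdjoinRoot.mk f T * c := by
    have h1 := Ideal.comap_ne_bot_of_integral_mem (I := Ideal.span {AdjoinRoot.mk f T}) ht
      (Ideal.mem_span_singleton_self _) (Algebra.IsIntegral.isIntegral (R := A[X]) (AdjoinRoot.mk f T))
    obtain ⟨a, ha, ha0⟩ := Submodule.exists_mem_ne_zero_of_ne_bot h1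
    rw [Ideal.mem_comap, Ideal.mem_span_singleton] at ha
    obtain ⟨c, hc⟩ := ha
    exact ⟨a, ha0, c, hc⟩
  set t₁ := t₀ * a.leadingCoeff with ht₁
  have ht₁0 : t₁ ≠ 0 := mul_ne_zero ht₀0 (leadingCoeff_ne_zero.2 ha0)
  have hdvd0 : s ∣ t₀ := by
    rw [ht₀, mul_assoc]
    exact dvd_mul_right _ _
  obtain ⟨C0, hC0, g0⟩ := hA t₀ ht₀0 hdvd0
  obtain ⟨C1, hC1, g1⟩ := hA t₁ ht₁0 (hdvd0.trans (dvd_mul_right _ _))
  -- bounds for the degrees
  obtain ⟨dd, hdd⟩ : ∃ dd : ℕ, ∀ i, (f.coeff i).natDegree ≤ dd := by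
    refine ⟨f.support.sup fun i => (f.coeff i).natDegree, fun i => ?_⟩
    by_cases hi : i ∈ f.support
    · exact Finset.le_sup (f := fun i => (f.coeff i).natDegree) hi
    · rw [notMem_support_iff.1 hi, natDegree_zero]
      exact Nat.zero_le _
  set W : ℝ := |PW.WC f.natDegree dd D₁.natDegree| with hW
  set e : ℝ := a.natDegree * f.natDegree with he
  refine ⟨(W + e) * (Nat.card L + C1) + f.natDegree * (C0 + C1) + C1,
    by positivity, ?_⟩
  intro k _ _ _
  have g0' := g0 k
  have g1' := g1 k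
  have hfin : Finite (A →+* k) := inferInstance
  let _ : Fintype (A →+* k) := Fintype.ofFinite _
  have hcard : Nat.card {φ : AdjoinRoot f →+* k // φ (AdjoinRoot.mk f T) ≠ 0} =
      ∑ ψ : A →+* k, Nat.card {z : k × k // ev ψ z f = 0 ∧ ev ψ z T ≠ 0} := by
    rw [Nat.card_congr (homEquiv f T), Nat.card_sigma]
  rw [hcard]
  set q : ℝ := (Nat.card k : ℝ) with hq
  have hq1 : 1 ≤ q := by
    rw [hq]
    exact_mod_cast Nat.card_pos
  have hsq1 : 1 ≤ √q := Real.one_le_sqrt.2 hq1
  refine arith (Finset.univ.filter fun ψ : A →+* k => ψ t₀ ≠ 0)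
    (Finset.univ.filter fun ψ : A →+* k => ψ t₁ ≠ 0) ?_
    (fun ψ => Nat.card {z : k × k // ev ψ z f = 0 ∧ ev ψ z T ≠ 0}) hq1 hsq1
    (Real.sq_sqrt (by linarith)) (abs_nonneg _) (by positivity) (by positivity) hC0 hC1 ?_ ?_ ?_ ?_
    ?_ ?_ (by positivity)
  · intro ψ hψ
    rw [Finset.mem_filter] at hψ ⊢
    refine ⟨hψ.1, fun h => hψ.2 ?_⟩
    rw [ht₁, map_mul, h, zero_mul]
  · -- the generic points
    intro ψ hψ
    rw [Finset.mem_filter, ht₁, ht₀, map_mul, map_mul, map_mul] at hψ
    have k1 := right_ne_zero_of_mul hψ.2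
    have k2 := left_ne_zero_of_mul hψ.2
    have k3 := right_ne_zero_of_mul k2
    have k4 := right_ne_zero_of_mul (left_ne_zero_of_mul k2)
    have hfm : (f.map (mapRingHom ψ)).Monic := hf.map _
    have hfd : (f.map (mapRingHom ψ)).natDegree = f.natDegree := hf.natDegree_map _
    have hirr' : Irreducible ((f.map (mapRingHom ψ)).map
        (mapRingHom (algebraMap k (AlgebraicClosure k)))) := by
      have h := hDirr (AlgebraicClosure k) ((algebraMap k (AlgebraicClosure k)).comp ψ) (by
        rw [RingHom.comp_apply]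
        exact (_root_.map_ne_zero _).2 k4)
      rw [Polynomial.map_map]
      have h5 : (mapRingHom (algebraMap k (AlgebraicClosure k))).comp (mapRingHom ψ) =
          mapRingHom ((algebraMap k (AlgebraicClosure k)).comp ψ) := by
        rw [mapRingHom_comp]
      rw [h5]
      exact h
    have hab' : a₁.map (mapRingHom ψ) * f.map (mapRingHom ψ) +
        b₁.map (mapRingHom ψ) * derivative (f.map (mapRingHom ψ)) = C (D₁.map ψ) := by
      have h := congrArg (Polynomial.map (mapRingHom ψ)) hab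
      rw [Polynomial.map_add, Polynomial.map_mul, Polynomial.map_mul, Polynomial.map_C] at h
      rw [derivative_map]
      exact h
    have hD' : D₁.map ψ ≠ 0 := by
      intro h
      apply k3
      have := congrArg (fun p => p.coeff D₁.natDegree) h
      simp only [coeff_map, coeff_zero] at this
      rw [hl, leadingCoeff]
      exact this
    have hw := PW.weil (F := k) (AlgebraicClosure k) (f := f.map (mapRingHom ψ)) hfm
      (by rw [hfd]; exact hf0) hab' hD' (δ := D₁.natDegree) natDegree_map_le (d := dd)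
      (fun i => by
        rw [coeff_map]
        exact natDegree_map_le.trans (hdd i)) hirr'
    rw [hfd] at hw
    have hnc : ({z : k × k | evalEval z.1 z.2 (f.map (mapRingHom ψ)) = 0}.ncard : ℝ) =
        Nat.card {z : k × k // ev ψ z f = 0} := by
      rw [← Nat.card_coe_set_eq]
      congr 1
      exact Nat.card_congr (Equiv.subtypeEquivRight fun z => by
        rw [Set.mem_ofPred_eq, ev_eq])
    rw [hnc] at hw
    have hb := bad_le hf hac ψ k1
    have hb' : (Nat.card {z : k × k // ev ψ z f = 0 ∧ ev ψ z T ≠ 0} : ℝ) ≤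
        Nat.card {z : k × k // ev ψ z f = 0} := by
      exact_mod_cast Nat.card_le_card_of_injective
        (fun z : {z : k × k // ev ψ z f = 0 ∧ ev ψ z T ≠ 0} =>
          (⟨z.1, z.2.1⟩ : {z : k × k // ev ψ z f = 0}))
        (fun z z' h => Subtype.ext (congrArg (fun w => w.1) h))
    have hb2 : (Nat.card {z : k × k // ev ψ z f = 0} : ℝ) ≤
        Nat.card {z : k × k // ev ψ z f = 0 ∧ ev ψ z T ≠ 0} + e := by
      rw [he]
      exact_mod_cast hb
    have hw2 : |(Nat.card {z : k × k // ev ψ z f = 0} : ℝ) - q| ≤ W * √q :=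
      hw.trans (mul_le_mul_of_nonneg_right (le_abs_self _) (Real.sqrt_nonneg _))
    rw [abs_le] at hw2 ⊢
    constructor <;> linarith [hw2.1, hw2.2, show (0 : ℝ) ≤ e by positivity]
  · intro ψ _
    have h := curve_le_all hf ψ
    have hb' : Nat.card {z : k × k // ev ψ z f = 0 ∧ ev ψ z T ≠ 0} ≤
        Nat.card {z : k × k // ev ψ z f = 0} :=
      Nat.card_le_card_of_injective
        (fun z : {z : k × k // ev ψ z f = 0 ∧ ev ψ z T ≠ 0} =>
          (⟨z.1, z.2.1⟩ : {z : k × k // ev ψ z f = 0}))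
        (fun z z' h => Subtype.ext (congrArg (fun w => w.1) h))
    rw [hq]
    exact_mod_cast hb'.trans h
  · intro ψ hψ
    rw [Finset.mem_filter, not_and] at hψ
    have h0 := not_not.1 (hψ (Finset.mem_univ _))
    rw [Nat.card_eq_zero]
    left
    constructor
    rintro ⟨z, hz, hT⟩
    apply hT
    obtain ⟨c', hc'⟩ := hst
    have h1 := congrArg (AdjoinRoot.lift (eval₂RingHom ψ z.1) z.2 hz) hc'
    rw [map_mul, AdjoinRoot.lift_of, AdjoinRoot.lift_mk, coe_eval₂RingHom, eval₂_C, h0,
      zero_mul] at h1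
    exact h1
  · have h := g0'
    rwa [Nat.card_eq_fintype_card, Fintype.card_subtype] at h
  · have h := g1'
    rwa [Nat.card_eq_fintype_card, Fintype.card_subtype] at h
  · exact_mod_cast (hom_le L k)



theorem t_STEP : S_STEP := by
  intro p _ A _ _ _ d L _ _ hA k₀ kb _ _ _ _ _ _ f hf hf0 hsep hirr
  exact stepP hA hf hf0 hsep hirr

end Pool.Agent.T2h48.LP
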