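import Pool.Agent.T2h48.LP.Stm
import Pool.Agent.T2h48.LP.T_STEP

set_option autoImplicit false
set_option linter.all false
set_option maxHeartbeats 4000000

set_option synthInstance.maxHeartbeats 400000

namespace Pool.Agent.T2h48.LP

open Pool.Agent.R410.LW

/-- from an embedding `L → M` to homomorphisms `L → k` -/
theorem exists_hom {A M : Type} [CommRing A] [IsDomain A] [Field M] [Algebra A M] [IsFractionRing A M]
    [Algebra.FiniteType ℤ A] {L : Type} [Field L] [Finite L] (j : L →+* M) :
    ∃ a : A, a ≠ 0 ∧ ∀ (k : Type) [Field k] [Finite k] (ψ : A →+* k), ψ a ≠ 0 →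
      Nonempty (L →+* k) := by
  classical
  let fA : A →ₐ[ℤ] M := (algebraMap A M).toIntAlgHom
  let fB : L →ₐ[ℤ] M := j.toIntAlgHom
  let C : Subalgebra ℤ M := fA.range ⊔ fB.range
  have hAfg : fA.range.FG := by
    rw [← Algebra.map_top]
    exact ((Algebra.FiniteType.out : (⊤ : Subalgebra ℤ A).FG)).map fA
  have hO : Algebra.FiniteType ℤ L := ⟨⟨(Set.toFinite (Set.univ : Set L)).toFinset, by
    rw [eq_top_iff]
    intro x _
    exact Algebra.subset_adjoin (by simp)⟩⟩
  have hBfg : fB.range.FG := by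
    rw [← Algebra.map_top]
    exact ((Algebra.FiniteType.out : (⊤ : Subalgebra ℤ L).FG)).map fB
  have hCfg : C.FG := hAfg.sup hBfg
  have hCft : Algebra.FiniteType ℤ C := C.fg_iff_finiteType.1 hCfg
  let _ : Algebra A C := ((algebraMap A M).codRestrict C.toSubring fun x =>
    (le_sup_left : fA.range ≤ C) ⟨x, rfl⟩).toAlgebra
  have hAC : ∀ x : A, ((algebraMap A C x : C) : M) = algebraMap A M x := fun x => rfl
  have iA : Function.Injective (algebraMap A C) := by
    intro x y h
    apply IsFractionRing.injective A M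
    rw [← hAC, ← hAC, h]
  have : Algebra.FiniteType A C := Algebra.FiniteType.of_restrictScalars_finiteType ℤ A C
  obtain ⟨a, ha0, ha⟩ := pow_den (A := A) (B := C) fun c => by
    obtain ⟨x, y, hy, hxy⟩ := IsFractionRing.div_surjective (A := A) (c : M)
    have hy0 : y ≠ 0 := nonZeroDivisors.ne_zero hy
    refine ⟨y, hy0, x, ?_⟩
    apply Subtype.ext
    show ((algebraMap A C y : C) : M) * (c : M) = _
    rw [hAC, hAC, ← hxy, mul_div_cancel₀]
    exact (map_ne_zero_iff _ (IsFractionRing.injective A M)).2 hy0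
  refine ⟨a, ha0, ?_⟩
  intro k _ _ ψ hψ
  have h1 := bir_card iA ha0 ha (dvd_refl a) k
  have hfin : Finite (A →+* k) := (Algebra.FiniteType.out : (⊤ : Subalgebra ℤ A).FG) |>.elim
    fun S hS => by
      refine Finite.of_injective (fun (φ : A →+* k) (x : S) => φ x) ?_
      intro φ φ' h
      have h2 : φ.toIntAlgHom = φ'.toIntAlgHom := by
        refine AlgHom.ext_of_adjoin_eq_top hS fun x hx => ?_
        exact congrFun h ⟨x, hx⟩
      refine RingHom.ext fun x => ?_
      exact DFunLike.congr_fun h2 x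
  have h2 : 0 < Nat.card {ψ : A →+* k // ψ a ≠ 0} := by
    have : Nonempty {ψ : A →+* k // ψ a ≠ 0} := ⟨⟨ψ, hψ⟩⟩
    exact Nat.card_pos
  rw [← h1] at h2
  obtain ⟨⟨φ, -⟩⟩ := (Nat.card_pos_iff.1 h2).1
  exact ⟨φ.comp ((j).codRestrict C.toSubring fun x =>
    (le_sup_right : fB.range ≤ C) ⟨x, rfl⟩)⟩

/-- the points of the closed subscheme of an ideal, where `t ≠ 0` -/
noncomputable def nu (A : Type) [CommRing A] (I : Ideal A) (t : A) :
    (k : Type) → [Field k] → [Finite k] → ℕ :=
  fun k _ _ => Nat.card {φ : A →+* k // (∀ a ∈ I, φ a = 0) ∧ φ t ≠ 0}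

theorem hom_finite (A k : Type) [CommRing A] [Algebra.FiniteType ℤ A] [Field k] [Finite k] :
    Finite (A →+* k) := by
  obtain ⟨S, hS⟩ := (inferInstance : Algebra.FiniteType ℤ A).out
  refine Finite.of_injective (fun (φ : A →+* k) (x : S) => φ x) ?_
  intro φ φ' h
  have h2 : φ.toIntAlgHom = φ'.toIntAlgHom := by
    refine AlgHom.ext_of_adjoin_eq_top hS fun x hx => ?_
    exact congrFun h ⟨x, hx⟩
  refine RingHom.ext fun x => ?_
  exact DFunLike.congr_fun h2 x

theorem asy_zero (p : ℕ) (ν : (k : Type) → [Field k] → [Finite k] → ℕ)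
    (h : ∀ (k : Type) [Field k] [Finite k] [CharP k p], ν k = 0) : AsyP p ν := by
  refine ⟨0, fun k _ _ hk => ⟨0, 0, le_refl _, le_refl _, fun _ => h k, ?_⟩⟩
  rw [h k]
  simp

theorem asy_congr {p : ℕ} {ν μ : (k : Type) → [Field k] → [Finite k] → ℕ}
    (h : ∀ (k : Type) [Field k] [Finite k] [CharP k p], ν k = μ k) (hμ : AsyP p μ) : AsyP p ν := by
  obtain ⟨C, g⟩ := hμ
  refine ⟨C, fun k _ _ hk => ?_⟩
  rw [h k]
  exact g k

theorem fg_of_ft {A M : Type} [CommRing A] [Algebra.FiniteType ℤ A] [Field M] [Algebra A M]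
    [IsFractionRing A M] : FG M := by
  classical
  obtain ⟨S, hS⟩ := (inferInstance : Algebra.FiniteType ℤ A).out
  refine ⟨S.image (algebraMap A M), ?_⟩
  have key : ∀ a : A, algebraMap A M a ∈
      Subfield.closure ((S.image (algebraMap A M) : Finset M) : Set M) := by
    intro a
    have ha : a ∈ Algebra.adjoin ℤ (S : Set A) := by rw [hS]; trivial
    induction ha using Algebra.adjoin_induction with
    | mem x hx =>
      refine Subfield.subset_closure ?_
      rw [Finset.coe_image]
      exact ⟨x, hx, rfl⟩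
    | algebraMap n =>
      rw [eq_intCast, map_intCast]
      exact intCast_mem _ n
    | add x y _ _ h1 h2 => rw [map_add]; exact add_mem h1 h2
    | mul x y _ _ h1 h2 => rw [map_mul]; exact mul_mem h1 h2
  rw [eq_top_iff]
  intro z _
  obtain ⟨a, b, -, rfl⟩ := IsFractionRing.div_surjective (A := A) z
  exact div_mem (key a) (key b)

theorem trdeg_fin {k M : Type} [Field k] [Field M] [Algebra k M] (h : FG M) :
    ∃ d : ℕ, Algebra.trdeg k M = d := by
  obtain ⟨S, hS⟩ := h
  have h1 : (⊤ : IntermediateField k M).FG := by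
    refine ⟨S, ?_⟩
    rw [eq_top_iff]
    intro x _
    have hx : x ∈ Subfield.closure (S : Set M) := by rw [hS]; trivial
    have h2 : Subfield.closure (S : Set M) ≤ (IntermediateField.adjoin k (S : Set M)).toSubfield := by
      rw [Subfield.closure_le]
      exact IntermediateField.subset_adjoin k _
    exact h2 hx
  have h2 : FinTrdeg k M := ⟨⊤, h1, inferInstance⟩
  exact Cardinal.lt_aleph0.1 (trdeg_lt_aleph0 k M)

/-- the case of a domain of characteristic `p` -/
theorem landau_dom (hMAIN : S_MAIN) {p : ℕ} [Fact p.Prime] (B : Type) [CommRing B] [IsDomain B]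
    [Algebra.FiniteType ℤ B] (hp : ((p : ℕ) : B) = 0) :
    ∃ (L : Type) (_ : Field L) (_ : Finite L) (d : ℕ), Nonempty (L →+* FractionRing B) ∧
      LandauP p B d L := by
  have h0 : ((p : ℕ) : FractionRing B) = 0 := by
    rw [← map_natCast (algebraMap B (FractionRing B)), hp, map_zero]
  have hc : CharP (FractionRing B) p := by
    obtain ⟨q, hq⟩ := CharP.exists (FractionRing B)
    have h1 : q ∣ p := (CharP.cast_eq_zero_iff (FractionRing B) q p).1 h0
    have h2 : q = p := by
      rcases (Nat.dvd_prime (Fact.out : p.Prime)).1 h1 with h3 | h3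
      · exact absurd h3 (CharP.char_ne_one (FractionRing B) q)
      · exact h3
    rw [← h2]
    exact hq
  let _ : Algebra (ZMod p) (FractionRing B) := ZMod.algebra _ p
  obtain ⟨d, hd⟩ := trdeg_fin (k := ZMod p) (fg_of_ft (A := B) (M := FractionRing B))
  obtain ⟨L, iL, fL, hj, hL⟩ := hMAIN p d (FractionRing B) (fg_of_ft (A := B)) hd
  exact ⟨L, iL, fL, d, hj, hL B⟩

theorem card_split {α : Type} [Finite α] (p q r : α → Prop) (h1 : ∀ x, p x ↔ q x ∨ r x)
    (h2 : ∀ x, ¬ (q x ∧ r x)) :
    Nat.card {x // p x} = Nat.card {x // q x} + Nat.card {x // r x} := by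
  classical
  have e1 : Nat.card {x // p x} = Set.ncard {x | p x} := rfl
  have e2 : Nat.card {x // q x} = Set.ncard {x | q x} := rfl
  have e3 : Nat.card {x // r x} = Set.ncard {x | r x} := rfl
  rw [e1, e2, e3, ← Set.ncard_union_eq]
  · congr 1
    ext x
    exact h1 x
  · rw [Set.disjoint_left]
    intro x hx hx'
    exact h2 x ⟨hx, hx'⟩

theorem asy_nu (hadd : S_ADD) (hL : S_MAIN) (p : ℕ) [Fact p.Prime] (A : Type) [CommRing A]
    [Algebra.FiniteType ℤ A] : ∀ (I : Ideal A) (t : A), AsyP p (nu A I t) := by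
  have hN : IsNoetherianRing A := Algebra.FiniteType.isNoetherianRing ℤ A
  intro I
  have hwf : WellFoundedGT (Ideal A) := inferInstance
  induction I using WellFoundedGT.induction with
  | ind I ih =>
  intro t
  have key : ∀ (a : A), a ∉ I → ∀ t, AsyP p (nu A (I ⊔ Ideal.span {a}) t) := by
    intro a ha t
    refine ih _ ?_ t
    rw [lt_iff_le_and_ne]
    refine ⟨le_sup_left, ?_⟩
    intro h
    apply ha
    rw [h]
    exact Ideal.mem_sup_right (Ideal.mem_span_singleton_self a)
  have hsup : ∀ (a : A) (k : Type) [Field k] (φ : A →+* k),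
      (∀ x ∈ I ⊔ Ideal.span {a}, φ x = 0) ↔ (∀ x ∈ I, φ x = 0) ∧ φ a = 0 := by
    intro a k _ φ
    constructor
    · intro h
      exact ⟨fun x hx => h x (Ideal.mem_sup_left hx), h a (Ideal.mem_sup_right (Ideal.mem_span_singleton_self a))⟩
    · rintro ⟨h1, h2⟩ x hx
      have h3 : I ⊔ Ideal.span {a} ≤ RingHom.ker φ := by
        rw [sup_le_iff]
        refine ⟨fun y hy => h1 y hy, ?_⟩
        rw [Ideal.span_le, Set.singleton_subset_iff]
        exact h2
      exact h3 hx
  by_cases htop : I = ⊤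
  · refine asy_zero _ _ ?_
    intro k _ _ _
    have : IsEmpty {φ : A →+* k // (∀ a ∈ I, φ a = 0) ∧ φ t ≠ 0} := by
      constructor
      rintro ⟨φ, h, -⟩
      have := h 1 (by rw [htop]; trivial)
      rw [map_one] at this
      exact one_ne_zero this
    exact Nat.card_of_isEmpty
  by_cases hp : I.IsPrime
  · -- the prime case
    have hdom : IsDomain (A ⧸ I) := Ideal.Quotient.isDomain I
    by_cases htI : t ∈ I
    · refine asy_zero _ _ ?_
      intro k _ _ _
      have : IsEmpty {φ : A →+* k // (∀ a ∈ I, φ a = 0) ∧ φ t ≠ 0} := by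
        constructor
        rintro ⟨φ, h, h'⟩
        exact h' (h t htI)
      exact Nat.card_of_isEmpty
    by_cases hchar : ((p : ℕ) : A) ∈ I
    swap
    · refine asy_congr ?_ (key _ hchar t)
      intro k _ _ _
      unfold nu
      refine Nat.card_congr (Equiv.subtypeEquivRight fun φ => ?_)
      rw [hsup]
      have h3 : φ ((p : ℕ) : A) = 0 := by rw [map_natCast, CharP.cast_eq_zero]
      exact ⟨fun h => ⟨⟨h.1, h3⟩, h.2⟩, fun h => ⟨h.1.1, h.2⟩⟩
    have hcz : ((p : ℕ) : A ⧸ I) = 0 := by
      rw [← map_natCast (Ideal.Quotient.mk I), Ideal.Quotient.eq_zero_iff_mem]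
      exact hchar
    have hft : @Algebra.FiniteType ℤ (A ⧸ I) _ _ (Ring.toIntAlgebra (A ⧸ I)) :=
      @Algebra.FiniteType.of_surjective ℤ A (A ⧸ I) _ _ _ _ (Ring.toIntAlgebra (A ⧸ I)) inferInstance
        (Ideal.Quotient.mk I).toIntAlgHom Ideal.Quotient.mk_surjective
    obtain ⟨L, iL, nL, d, ⟨j⟩, hLan⟩ := landau_dom hL (p := p) (A ⧸ I) hcz
    obtain ⟨s, hs0, hs⟩ := hLan
    obtain ⟨a, ha0, ha⟩ := exists_hom (A := A ⧸ I) (M := FractionRing (A ⧸ I)) (L := L) j
    obtain ⟨s, rfl⟩ := Ideal.Quotient.mk_surjective s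
    obtain ⟨a, rfl⟩ := Ideal.Quotient.mk_surjective a
    have htq : Ideal.Quotient.mk I t ≠ 0 := by
      rw [ne_eq, Ideal.Quotient.eq_zero_iff_mem]
      exact htI
    have hprod : s * a ∉ I := by
      rw [← Ideal.Quotient.eq_zero_iff_mem, map_mul]
      exact mul_ne_zero hs0 ha0
    obtain ⟨C, hC0, hC⟩ := hs (Ideal.Quotient.mk I (t * (s * a)))
      (by rw [map_mul, map_mul]; exact mul_ne_zero htq (mul_ne_zero hs0 ha0))
      ⟨Ideal.Quotient.mk I (t * a), by rw [← map_mul]; congr 1; ring⟩
    have h1 : AsyP p (nu A I (t * (s * a))) := by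
      refine ⟨⌈C⌉₊ + d + Nat.card L, fun k _ _ hk => ?_⟩
      have e1 : nu A I (t * (s * a)) k =
          Nat.card {φ : A ⧸ I →+* k // φ (Ideal.Quotient.mk I (t * (s * a))) ≠ 0} := by
        unfold nu
        refine Nat.card_congr
          { toFun := fun φ => ⟨Ideal.Quotient.lift I φ.1 φ.2.1, ?_⟩
            invFun := fun φ => ⟨φ.1.comp (Ideal.Quotient.mk I), ?_, ?_⟩
            left_inv := ?_
            right_inv := ?_ }
        · rw [Ideal.Quotient.lift_mk]
          exact φ.2.2
        · intro x hx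
          rw [RingHom.comp_apply, Ideal.Quotient.eq_zero_iff_mem.2 hx, map_zero]
        · exact φ.2
        · intro φ
          apply Subtype.ext
          exact RingHom.ext fun x => by rw [RingHom.comp_apply, Ideal.Quotient.lift_mk]
        · intro φ
          apply Subtype.ext
          exact Ideal.Quotient.ringHom_ext (RingHom.ext fun x => by
            rw [RingHom.comp_apply, Ideal.Quotient.lift_mk])
      have hfk : Finite (A ⧸ I →+* k) := hom_finite _ _
      have hfL : Finite (L →+* k) :=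
        Finite.of_injective (fun (φ : L →+* k) (x : L) => φ x) fun φ φ' h => RingHom.ext fun x => congrFun h x
      refine ⟨Nat.card (L →+* k), d, ?_, by omega, ?_, ?_⟩
      · exact (hom_le L k).trans (by omega)
      · intro h0
        rw [e1]
        have : IsEmpty {φ : A ⧸ I →+* k // φ (Ideal.Quotient.mk I (t * (s * a))) ≠ 0} := by
          constructor
          rintro ⟨φ, hφ⟩
          have hφa : φ (Ideal.Quotient.mk I a) ≠ 0 := by
            intro h
            apply hφ
            rw [map_mul, map_mul, map_mul, map_mul, h, mul_zero, mul_zero]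
          obtain ⟨ψ⟩ := ha k φ hφa
          have h5 : 0 < Nat.card (L →+* k) := by
            have : Nonempty (L →+* k) := ⟨ψ⟩
            exact Nat.card_pos
          omega
        exact Nat.card_of_isEmpty
      · rw [e1]
        refine (hC k).trans ?_
        refine mul_le_mul_of_nonneg_right ?_ (by positivity)
        have := Nat.le_ceil C
        push_cast
        have h7 : (0 : ℝ) ≤ d := Nat.cast_nonneg _
        have h8 : (0 : ℝ) ≤ Nat.card L := Nat.cast_nonneg _
        linarith
    have h2 := key _ hprod t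
    refine asy_congr ?_ (hadd p _ _ h1 h2)
    intro k _ _ _
    have hfk : Finite (A →+* k) := hom_finite _ _
    unfold nu
    refine card_split _ _ _ ?_ ?_
    · intro φ
      rw [hsup, map_mul φ t]
      constructor
      · rintro ⟨h3, h4⟩
        by_cases h5 : φ (s * a) = 0
        · exact Or.inr ⟨⟨h3, h5⟩, h4⟩
        · exact Or.inl ⟨h3, mul_ne_zero h4 h5⟩
      · rintro (⟨h3, h4⟩ | ⟨⟨h3, -⟩, h4⟩)
        · exact ⟨h3, left_ne_zero_of_mul h4⟩
        · exact ⟨h3, h4⟩
    · intro φ
      rw [hsup, map_mul φ t]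
      rintro ⟨⟨-, h4⟩, ⟨-, h5⟩, -⟩
      exact h4 (by rw [h5, mul_zero])
  · -- not prime
    have h1 : ∃ a b : A, a ∉ I ∧ b ∉ I ∧ a * b ∈ I := by
      by_contra h
      push Not at h
      apply hp
      refine ⟨htop, ?_⟩
      intro x y hxy
      by_contra h5
      rw [not_or] at h5
      exact h x y h5.1 h5.2 hxy
    obtain ⟨a, b, ha, hb, hab⟩ := h1
    refine asy_congr ?_ (hadd p _ _ (key a ha t) (key b hb (a * t)))
    intro k _ _ _
    have hfk : Finite (A →+* k) := hom_finite _ _
    unfold nu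
    refine card_split _ _ _ ?_ ?_
    · intro φ
      rw [hsup, hsup, map_mul φ a]
      constructor
      · rintro ⟨h3, h4⟩
        by_cases h5 : φ a = 0
        · exact Or.inl ⟨⟨h3, h5⟩, h4⟩
        · refine Or.inr ⟨⟨h3, ?_⟩, mul_ne_zero h5 h4⟩
          have := h3 _ hab
          rw [map_mul] at this
          exact (mul_eq_zero.1 this).resolve_left h5
      · rintro (⟨⟨h3, -⟩, h4⟩ | ⟨⟨h3, -⟩, h4⟩)
        · exact ⟨h3, h4⟩
        · exact ⟨h3, right_ne_zero_of_mul h4⟩
    · intro φ
      rw [hsup, hsup, map_mul φ a]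
      rintro ⟨⟨⟨-, h4⟩, -⟩, -, h5⟩
      exact h5 (by rw [h4, zero_mul])

theorem t_RING (hL : S_MAIN) (hadd : S_ADD) : S_RING := by
  intro p _ A _ _ t
  refine asy_congr ?_ (asy_nu hadd hL p A ⊥ t)
  intro k _ _ _
  unfold nu
  refine Nat.card_congr (Equiv.subtypeEquivRight fun φ => ?_)
  constructor
  · intro h
    refine ⟨?_, h⟩
    intro a ha
    rw [Ideal.mem_bot] at ha
    rw [ha, map_zero]
  · exact fun h => h.2

end Pool.Agent.T2h48.LP
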