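import Pool.Agent.T2h48.LP.Stm

/-! The structure of the fields of transcendence degree one over a field, in characteristic `p` (STR). -/

set_option autoImplicit false
set_option linter.all false

open Polynomial
open scoped IntermediateField.algebraAdjoinAdjoin

namespace Pool.Agent.T2h48.LP

open Pool.Agent.R410.LW

/-- A monic irreducible polynomial over `k[X]` with nonzero derivative is separable. -/
theorem str_sep {k : Type} [Field k] {f : k[X][X]} (hf : f.Monic) (hirr : Irreducible f)
    (hd : derivative f ≠ 0) : Sep f := by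
  classical
  let K2 := FractionRing k[X]
  have h2 : Irreducible (f.map (algebraMap k[X] K2)) :=
    (hf.irreducible_iff_irreducible_map_fraction_map (K := K2)).1 hirr
  have h3 : (f.map (algebraMap k[X] K2)).Separable := by
    rw [separable_iff_derivative_ne_zero h2, derivative_map]
    intro h
    exact hd ((Polynomial.map_eq_zero_iff (IsFractionRing.injective k[X] K2)).1 h)
  obtain ⟨a, b, hab⟩ := h3
  obtain ⟨d1, a', hd1, ha'⟩ := clear (R := k[X]) a
  obtain ⟨d2, b', hd2, hb'⟩ := clear (R := k[X]) b
  refine ⟨C d2 * a', C d1 * b', d1 * d2, mul_ne_zero hd1 hd2, ?_⟩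
  apply Polynomial.map_injective (algebraMap k[X] K2) (IsFractionRing.injective k[X] K2)
  simp only [Polynomial.map_add, Polynomial.map_mul, Polynomial.map_C, map_mul, ha', hb', C_mul]
  rw [← derivative_map]
  linear_combination (C (algebraMap k[X] K2 d1) * C (algebraMap k[X] K2 d2)) * hab

/-- A separable element over `F(x)` is a simple root of a polynomial over `F[x]`. -/
theorem str_root {F M : Type} [Field F] [Field M] [Algebra F M] (x : M)
    (hx : Transcendental F x) (θ : M)
    (hs : IsSeparable (IntermediateField.adjoin F {x}) θ) :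
    ∃ P : F[X][X], eval₂ (aeval x : F[X] →ₐ[F] M).toRingHom θ P = 0 ∧
      eval₂ (aeval x : F[X] →ₐ[F] M).toRingHom θ (derivative P) ≠ 0 := by
  classical
  set K1 := IntermediateField.adjoin F {x} with hK1
  let m := minpoly K1 θ
  have hm : m.Separable := hs
  have hm0 : aeval θ m = 0 := minpoly.aeval _ _
  have hm1 : aeval θ (derivative m) ≠ 0 := hm.aeval_derivative_ne_zero hm0
  obtain ⟨d, q, hd, hq⟩ := clear (R := Algebra.adjoin F ({x} : Set M)) (K := K1) m
  let g : F[X] →+* Algebra.adjoin F ({x} : Set M) :=
    (aeval (⟨x, Algebra.subset_adjoin (Set.mem_singleton x)⟩ : Algebra.adjoin F ({x} : Set M)) :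
      F[X] →ₐ[F] _).toRingHom
  have hg : ∀ q : F[X], ((g q : Algebra.adjoin F ({x} : Set M)) : M) = aeval x q := fun q => by
    have := (Polynomial.aeval_algebraMap_apply M
      (⟨x, Algebra.subset_adjoin (Set.mem_singleton x)⟩ : Algebra.adjoin F ({x} : Set M)) q)
    exact this.symm
  have hgs : Function.Surjective g := by
    rintro ⟨z, hz⟩
    rw [Algebra.adjoin_singleton_eq_range_aeval] at hz
    obtain ⟨q, hq⟩ := hz
    exact ⟨q, Subtype.ext ((hg q).trans hq)⟩
  obtain ⟨P, rfl⟩ := Polynomial.map_surjective g hgs q
  have e : (aeval x : F[X] →ₐ[F] M).toRingHom =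
      (algebraMap K1 M).comp ((algebraMap (Algebra.adjoin F ({x} : Set M)) K1).comp g) := by
    apply RingHom.ext
    intro q
    exact (hg q).symm
  have hdM : algebraMap K1 M (algebraMap (Algebra.adjoin F ({x} : Set M)) K1 d) ≠ 0 := by
    rw [_root_.map_ne_zero]
    intro h
    exact hd ((IsFractionRing.injective (Algebra.adjoin F ({x} : Set M)) K1) (by rw [h, map_zero]))
  have key : ∀ Q : F[X][X], eval₂ (aeval x : F[X] →ₐ[F] M).toRingHom θ Q =
      aeval θ ((Q.map g).map (algebraMap (Algebra.adjoin F ({x} : Set M)) K1)) := by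
    intro Q
    rw [aeval_def, eval₂_map, eval₂_map, e, RingHom.comp_assoc]
  refine ⟨P, ?_, ?_⟩
  · rw [key, hq, map_mul, hm0, mul_zero]
  · rw [key, ← derivative_map, ← derivative_map, hq, derivative_C_mul, map_mul, aeval_C]
    exact mul_ne_zero hdM hm1

theorem t_STR (hPI : S_PIRR) : S_STR := by
  intro p _ F M _ _ _ _ x hx _ _
  classical
  set K1 := IntermediateField.adjoin F {x} with hK1
  obtain ⟨α, hα⟩ := Field.exists_primitive_element K1 M
  letI ia : Algebra F[X] M := (aeval x : F[X] →ₐ[F] M).toRingHom.toAlgebra
  have hia : ∀ p : F[X], algebraMap F[X] M p = aeval x p := fun p => rfl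
  obtain ⟨a, ha0, ha⟩ := (alg_poly (F := F) x α).exists_integral_multiple
  set θ := a • α with hθ
  have hθe : θ = aeval x a * α := by rw [hθ, Algebra.smul_def, hia]
  have hax : aeval x a ≠ 0 := fun h => ha0 (transcendental_iff.1 hx a h)
  -- generation
  have hgen : IntermediateField.adjoin F {x, θ} = ⊤ := by
    set N := IntermediateField.adjoin F {x, θ} with hN
    have hxN : x ∈ N := IntermediateField.subset_adjoin F _ (by simp)
    have hθN : θ ∈ N := IntermediateField.subset_adjoin F _ (by simp)
    have hKN : K1 ≤ N := by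
      rw [hK1, IntermediateField.adjoin_le_iff]
      rintro _ rfl
      exact hxN
    have haN : aeval x a ∈ N := by
      have := (Polynomial.aeval_algebraMap_apply M (⟨x, hxN⟩ : N) a)
      change aeval x a = ((aeval (⟨x, hxN⟩ : N) a : N) : M) at this
      rw [this]
      exact Subtype.mem _
    have hαN : α ∈ N := by
      have h1 : α = θ / aeval x a := by
        rw [hθe, mul_div_cancel_left₀ _ hax]
      rw [h1]
      exact div_mem hθN haN
    have h2 : IntermediateField.adjoin K1 {α} ≤ IntermediateField.extendScalars hKN := by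
      rw [IntermediateField.adjoin_le_iff]
      rintro _ rfl
      exact hαN
    rw [hα] at h2
    rw [eq_top_iff]
    intro z _
    exact h2 (IntermediateField.mem_top (x := z))
  obtain ⟨P, hP0, hP1⟩ := str_root (F := F) x hx θ (Algebra.IsSeparable.isSeparable K1 θ)
  -- the separable closure
  let Mb := SeparableClosure M
  let Om : IntermediateField F Mb := separableClosure F Mb
  have hOmc : IsSepClosed Om :=
    (inferInstance : IsSepClosure F (separableClosure F Mb)).sep_closed
  have hOma : Algebra.IsAlgebraic F Om := separableClosure.isAlgebraic F Mb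
  haveI hcO : CharP Om p := charP_of_injective_algebraMap (algebraMap F Om).injective p
  have hxb : Transcendental Om (algebraMap M Mb x) := by
    intro h
    have h1 : IsAlgebraic F (algebraMap M Mb x) := h.restrictScalars F
    exact hx ((isAlgebraic_algebraMap_iff (algebraMap M Mb).injective).1 h1)
  letI ib : Algebra Om[X] Mb := (aeval (algebraMap M Mb x) : Om[X] →ₐ[Om] Mb).toRingHom.toAlgebra
  have hib : ∀ p : Om[X], algebraMap Om[X] Mb p = aeval (algebraMap M Mb x) p := fun p => rfl
  have hibi : Function.Injective (algebraMap Om[X] Mb) := transcendental_iff_injective.1 hxb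
  have htf : Module.IsTorsionFree Om[X] Mb := Module.isTorsionFree_iff_algebraMap_injective.mpr hibi
  let j : F →+* Om := algebraMap F Om
  have hcomp : (algebraMap Om[X] Mb).comp (mapRingHom j) =
      (algebraMap M Mb).comp (aeval x : F[X] →ₐ[F] M).toRingHom := by
    apply Polynomial.ringHom_ext
    · intro c
      rw [RingHom.comp_apply, RingHom.comp_apply, coe_mapRingHom, Polynomial.map_C, hib,
        aeval_C]
      show _ = algebraMap M Mb (aeval x (C c))
      rw [aeval_C]
      rfl
    · rw [RingHom.comp_apply, RingHom.comp_apply, coe_mapRingHom, Polynomial.map_X, hib,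
        aeval_X]
      show _ = algebraMap M Mb (aeval x X)
      rw [aeval_X]
  have hθb : IsIntegral Om[X] (algebraMap M Mb θ) := by
    refine ha.map_of_comp_eq (mapRingHom j) (algebraMap M Mb) ?_
    exact hcomp
  set g : Om[X][X] := minpoly Om[X] (algebraMap M Mb θ) with hg
  have hgm : g.Monic := minpoly.monic hθb
  have hgirr : Irreducible g := minpoly.irreducible hθb
  have hgpos : 0 < g.natDegree := minpoly.natDegree_pos hθb
  have hgroot : aeval (algebraMap M Mb θ) g = 0 := minpoly.aeval _ _
  -- the derivative is not zero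
  have hPm : ∀ Q : F[X][X], aeval (algebraMap M Mb θ) (Q.map (mapRingHom j)) =
      algebraMap M Mb (eval₂ (aeval x : F[X] →ₐ[F] M).toRingHom θ Q) := by
    intro Q
    rw [aeval_def, eval₂_map, hcomp, Polynomial.hom_eval₂]
  have hgd : derivative g ≠ 0 := by
    intro hd0
    have h1 : g ∣ P.map (mapRingHom j) :=
      minpoly.isIntegrallyClosed_dvd hθb (by rw [hPm, hP0, map_zero])
    obtain ⟨w, hw⟩ := h1
    have h2 : aeval (algebraMap M Mb θ) ((derivative P).map (mapRingHom j)) = 0 := by
      rw [← derivative_map, hw, derivative_mul, hd0, zero_mul, zero_add, map_mul, hgroot, zero_mul]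
    rw [hPm, map_eq_zero] at h2
    exact hP1 h2
  have hgsep : Sep g := str_sep hgm hgirr hgd
  -- the coefficients are in `M`
  have hco : ∀ i l : ℕ, ∃ m : M, algebraMap M Mb m = (((g.coeff i).coeff l : Om) : Mb) := by
    intro i l
    have h1 : (((g.coeff i).coeff l : Om) : Mb) ∈ (⊥ : IntermediateField M Mb) := by
      rw [InfiniteGalois.mem_bot_iff_fixed]
      intro σ
      have hσOm : ∀ z : Om, σ (z : Mb) ∈ Om := by
        intro z
        have hz : (z : Mb) ∈ separableClosure F Mb := z.2
        show σ (z : Mb) ∈ separableClosure F Mb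
        exact (map_mem_separableClosure_iff (((σ : Mb →ₐ[M] Mb).restrictScalars F))).2 hz
      let τ : Om →+* Om := ((σ : Mb →+* Mb).comp (algebraMap Om Mb)).codRestrict Om.toSubring
        (fun z => hσOm z)
      have hτ : ∀ z : Om, ((τ z : Om) : Mb) = σ (z : Mb) := fun z => rfl
      have hroot : aeval (algebraMap M Mb θ) (g.map (mapRingHom τ)) = 0 := by
        have e : aeval (algebraMap M Mb θ) (g.map (mapRingHom τ)) =
            σ (aeval (algebraMap M Mb θ) g) := by
          rw [aeval_def, aeval_def, eval₂_map]
          have h2 : σ (eval₂ (algebraMap Om[X] Mb) (algebraMap M Mb θ) g) =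
              eval₂ ((σ : Mb →+* Mb).comp (algebraMap Om[X] Mb)) (σ (algebraMap M Mb θ)) g :=
            Polynomial.hom_eval₂ g _ (σ : Mb →+* Mb) _
          rw [h2, AlgEquiv.commutes]
          congr 1
          apply Polynomial.ringHom_ext
          · intro c
            rw [RingHom.comp_apply, RingHom.comp_apply, coe_mapRingHom, Polynomial.map_C, hib, hib,
              aeval_C, aeval_C]
            exact hτ c
          · rw [RingHom.comp_apply, RingHom.comp_apply, coe_mapRingHom, Polynomial.map_X, hib,
              aeval_X]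
            exact (σ.commutes x).symm
        rw [e, hgroot, map_zero]
      have hdvd : g ∣ g.map (mapRingHom τ) := minpoly.isIntegrallyClosed_dvd hθb hroot
      have heq : g.map (mapRingHom τ) = g :=
        eq_of_monic_of_dvd_of_natDegree_le hgm (hgm.map _) hdvd (by rw [hgm.natDegree_map])
      have h3 := congrArg (fun p : Om[X][X] => (p.coeff i).coeff l) heq
      simp only [coeff_map, coe_mapRingHom] at h3
      rw [← hτ, h3]
    rw [IntermediateField.mem_bot] at h1
    exact h1
  choose m hm using hco
  -- the field of the coefficients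
  set T : Finset M := (Finset.range (g.natDegree + 1)).biUnion fun i =>
    (Finset.range ((g.coeff i).natDegree + 1)).image fun l => m i l with hT
  have hmalg : ∀ i l, IsAlgebraic F (m i l) := by
    intro i l
    have h1 : IsAlgebraic F (algebraMap M Mb (m i l)) := by
      rw [hm]
      have h2 : (((g.coeff i).coeff l : Om) : Mb) ∈ separableClosure F Mb := Subtype.mem _
      exact (mem_separableClosure_iff.1 h2).isIntegral.isAlgebraic
    exact (isAlgebraic_algebraMap_iff (algebraMap M Mb).injective).1 h1
  have hmsep : ∀ i l, IsSeparable F (m i l) := by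
    intro i l
    have h2 : (((g.coeff i).coeff l : Om) : Mb) ∈ separableClosure F Mb := Subtype.mem _
    rw [← hm, mem_separableClosure_iff] at h2
    unfold IsSeparable at h2 ⊢
    rwa [minpoly.algebraMap_eq (algebraMap M Mb).injective] at h2
  let F₁ := IntermediateField.adjoin F (T : Set M)
  have hfd : FiniteDimensional F F₁ := IntermediateField.finiteDimensional_adjoin fun z hz => by
    rw [hT, Finset.mem_coe, Finset.mem_biUnion] at hz
    obtain ⟨i, -, hz⟩ := hz
    obtain ⟨l, -, rfl⟩ := Finset.mem_image.1 hz
    exact (hmalg i l).isIntegral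
  have hle : F₁ ≤ separableClosure F M := by
    show IntermediateField.adjoin F (T : Set M) ≤ separableClosure F M
    rw [IntermediateField.adjoin_le_iff]
    intro z hz
    rw [hT, Finset.mem_coe, Finset.mem_biUnion] at hz
    obtain ⟨i, -, hz⟩ := hz
    obtain ⟨l, -, rfl⟩ := Finset.mem_image.1 hz
    exact mem_separableClosure_iff.2 (hmsep i l)
  have hmem : ∀ z : F₁, algebraMap M Mb z ∈ Om := by
    intro z
    have h1 : IsSeparable F (z : M) := mem_separableClosure_iff.1 (hle z.2)
    show algebraMap M Mb z ∈ separableClosure F Mb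
    rw [mem_separableClosure_iff]
    unfold IsSeparable at h1 ⊢
    rwa [minpoly.algebraMap_eq (algebraMap M Mb).injective]
  let ι : F₁ →+* Om := ((algebraMap M Mb).comp (algebraMap F₁ M)).codRestrict Om.toSubring
    (fun z => hmem z)
  have hι : ∀ z : F₁, ((ι z : Om) : Mb) = algebraMap M Mb z := fun z => rfl
  have hlift : g ∈ lifts (mapRingHom ι) := by
    rw [lifts_iff_coeff_lifts]
    intro i
    show g.coeff i ∈ Set.range (mapRingHom ι)
    have h1 : g.coeff i ∈ lifts ι := by
      rw [lifts_iff_coeff_lifts]
      intro l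
      by_cases hi : i ≤ g.natDegree
      · by_cases hl : l ≤ (g.coeff i).natDegree
        · refine ⟨⟨m i l, IntermediateField.subset_adjoin F _ ?_⟩, ?_⟩
          · rw [hT, Finset.mem_coe, Finset.mem_biUnion]
            exact ⟨i, Finset.mem_range.2 (by omega), Finset.mem_image.2
              ⟨l, Finset.mem_range.2 (by omega), rfl⟩⟩
          · apply Subtype.ext
            rw [hι]
            exact hm i l
        · refine ⟨0, ?_⟩
          rw [map_zero, coeff_eq_zero_of_natDegree_lt (by omega)]
      · refine ⟨0, ?_⟩
        rw [map_zero, coeff_eq_zero_of_natDegree_lt (p := g) (by omega), coeff_zero]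
    obtain ⟨p, hp⟩ := (lifts_iff_set_range _).1 h1
    exact ⟨p, hp⟩
  obtain ⟨f, hfg, hfdeg, hfm⟩ := lifts_and_natDegree_eq_and_monic hlift hgm
  have hιi : Function.Injective ι := ι.injective
  have hmιi : Function.Injective (mapRingHom ι) := Polynomial.map_injective ι hιi
  let Oc := AlgebraicClosure Om
  letI ic : Algebra F₁ Oc := ((algebraMap Om Oc).comp ι).toAlgebra
  have hfirr : Irreducible f :=
    hfm.irreducible_of_irreducible_map (mapRingHom ι) f (by rw [hfg]; exact hgirr)
  have hfd0 : derivative f ≠ 0 := by
    intro h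
    apply hgd
    rw [← hfg, derivative_map, h, Polynomial.map_zero]
  haveI hpi : IsPurelyInseparable Om Oc := inferInstance
  refine ⟨F₁, hfd, θ, f, Oc, inferInstance, inferInstance, ic, hfm, by rw [hfdeg]; exact hgpos, ?_,
    str_sep hfm hfirr hfd0, ?_, hgen⟩
  · have e : f.map (mapRingHom (algebraMap F₁ Oc)) = g.map (mapRingHom (algebraMap Om Oc)) := by
      rw [← hfg, Polynomial.map_map]
      congr 1
      apply Polynomial.ringHom_ext
      · intro c
        rw [RingHom.comp_apply, coe_mapRingHom, coe_mapRingHom, coe_mapRingHom, Polynomial.map_C,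
          Polynomial.map_C, Polynomial.map_C]
        rfl
      · rw [RingHom.comp_apply, coe_mapRingHom, coe_mapRingHom, coe_mapRingHom, Polynomial.map_X,
          Polynomial.map_X, Polynomial.map_X]
    rw [e]
    exact hPI p Om Oc g hgm hgirr hgsep
  · intro p
    have e : aeval (algebraMap M Mb θ) (p.map (mapRingHom ι)) =
        algebraMap M Mb (eval₂ (eval₂RingHom (algebraMap F₁ M) x) θ p) := by
      rw [aeval_def, eval₂_map, Polynomial.hom_eval₂]
      congr 1
      apply Polynomial.ringHom_ext
      · intro c
        rw [RingHom.comp_apply, RingHom.comp_apply, coe_mapRingHom, Polynomial.map_C, hib, aeval_C,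
          coe_eval₂RingHom, eval₂_C]
        exact hι c
      · rw [RingHom.comp_apply, RingHom.comp_apply, coe_mapRingHom, Polynomial.map_X, hib, aeval_X,
          coe_eval₂RingHom, eval₂_X]
    rw [← map_dvd_map (mapRingHom ι) (Polynomial.map_injective ι hιi) hfm, hfg, hg,
      ← minpoly.isIntegrallyClosed_dvd_iff hθb, e, map_eq_zero]

end Pool.Agent.T2h48.LP
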