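import Pool.Agent.T2h48.LP.Stm

/-! Task SUB of project LP. -/

set_option autoImplicit false

namespace Pool.Agent.T2h48.LP

open Pool.Agent.R410.LW
open scoped IntermediateField.algebraAdjoinAdjoin

/-- task SUB -/
theorem t_SUB : S_SUB := by
  intro p _ M _ _ d hFG htr
  classical
  -- `M` is essentially of finite type
  have hess : Algebra.EssFiniteType (ZMod p) M := by
    obtain ⟨S, hS⟩ := hFG
    refine IntermediateField.fg_top_iff.1 ⟨S, ?_⟩
    rw [eq_top_iff]
    intro z _
    have hz : z ∈ Subfield.closure (S : Set M) := by
      rw [hS]
      trivial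
    have h2 : Subfield.closure (S : Set M) ≤
        (IntermediateField.adjoin (ZMod p) (S : Set M)).toSubfield := by
      rw [Subfield.closure_le]
      exact IntermediateField.subset_adjoin (ZMod p) _
    exact h2 hz
  obtain ⟨s, hs, hsep⟩ := exists_isTranscendenceBasis_and_isSeparable_of_perfectField (ZMod p) M
  have hc : (s.card : Cardinal) = ((d + 1 : ℕ) : Cardinal) := by
    have h1 := hs.cardinalMk_eq_trdeg
    rw [htr] at h1
    rw [← h1, Cardinal.mk_coe_finset]
  have hc' : s.card = d + 1 := by exact_mod_cast hc
  obtain ⟨x, hx⟩ : s.Nonempty := by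
    rw [← Finset.card_pos]; omega
  set T : Finset M := s.erase x with hT
  have hTs : (s : Set M) = insert x (T : Set M) := by
    rw [hT, Finset.coe_erase]
    ext z
    by_cases h : z = x
    · subst h; simp [hx]
    · simp [h]
  set F := IntermediateField.adjoin (ZMod p) (T : Set M) with hF
  set N2 := IntermediateField.adjoin F {x} with hN2
  have hle : IntermediateField.adjoin (ZMod p) (s : Set M) ≤ N2.restrictScalars (ZMod p) := by
    rw [IntermediateField.adjoin_le_iff, hTs]
    intro z hz
    rcases hz with rfl | hz
    · exact IntermediateField.subset_adjoin F {z} (Set.mem_singleton _)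
    · have h2 : z ∈ F := IntermediateField.subset_adjoin (ZMod p) _ hz
      exact IntermediateField.algebraMap_mem N2 (⟨_, h2⟩ : F)
  let _ : Algebra (IntermediateField.adjoin (ZMod p) (s : Set M)) N2 :=
    ((algebraMap (IntermediateField.adjoin (ZMod p) (s : Set M)) M).codRestrict N2.toSubring
      fun z => hle z.2).toAlgebra
  have _ : IsScalarTower (IntermediateField.adjoin (ZMod p) (s : Set M)) N2 M :=
    IsScalarTower.of_algebraMap_eq fun z => rfl
  have hsep2 : Algebra.IsSeparable N2 M :=
    Algebra.isSeparable_tower_top_of_isSeparable
      (IntermediateField.adjoin (ZMod p) (s : Set M)) N2 M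
  refine ⟨T, x, ?_, Algebra.IsSeparable.isAlgebraic N2 M, hsep2⟩
  -- transcendence
  have hind : AlgebraicIndependent (ZMod p)
      (fun o : Option (T : Set M) => o.elim x fun i => (i : M)) := by
    have hmem : ∀ o : Option (T : Set M), (o.elim x fun i => (i : M)) ∈ s := by
      intro o
      rcases o with _ | ⟨i, hi⟩
      · exact hx
      · have : i ∈ T := hi
        rw [hT] at this
        exact Finset.mem_of_mem_erase this
    let e : Option (T : Set M) → s := fun o => ⟨o.elim x fun i => (i : M), hmem o⟩
    have he : Function.Injective e := by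
      intro o o' h
      have h1 : (o.elim x fun i => (i : M)) = (o'.elim x fun i => (i : M)) :=
        congrArg (fun z : s => (z : M)) h
      have hne : ∀ i : (T : Set M), (i : M) ≠ x := by
        rintro ⟨i, hi⟩
        have : i ∈ T := hi
        rw [hT] at this
        exact Finset.ne_of_mem_erase this
      rcases o with _ | i <;> rcases o' with _ | i'
      · rfl
      · exact absurd h1.symm (hne i')
      · exact absurd h1 (hne i)
      · congr 1
        exact Subtype.ext h1
    exact hs.1.comp e he
  have h3 := (AlgebraicIndependent.option_iff.1 hind).2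
  rw [Subtype.range_coe] at h3
  intro h4
  apply h3
  exact (IsFractionRing.isAlgebraic_iff (Algebra.adjoin (ZMod p) (T : Set M))
    (IntermediateField.adjoin (ZMod p) (T : Set M)) M).2 h4

end Pool.Agent.T2h48.LP
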