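import Pool.Agent.T2h48.LP.T_ADD
import Pool.Agent.T2h48.LP.T_BIR
import Pool.Agent.T2h48.LP.T_FGS
import Pool.Agent.T2h48.LP.T_FORM
import Pool.Agent.T2h48.LP.T_MAIN
import Pool.Agent.T2h48.LP.T_PIRR
import Pool.Agent.T2h48.LP.T_RING
import Pool.Agent.T2h48.LP.T_STEP
import Pool.Agent.T2h48.LP.T_STR
import Pool.Agent.T2h48.LP.T_SUB

/-! The theorem of Lang and Weil in a fixed positive characteristic. -/

set_option autoImplicit false

namespace Pool.Agent.T2h48.LP

theorem main_all : S_MAIN := t_MAIN (t_STR t_PIRR) t_STEP t_BIR t_SUB t_FGS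

theorem ring_all : S_RING := t_RING main_all t_ADD

theorem form_all : S_FORM := t_FORM ring_all t_ADD

end Pool.Agent.T2h48.LP
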