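import Pool.Agent.R410.LW.Main
import Pool.Agent.T2h48.DW.Defs

/-!
# Project LP: the theorem of Lang and Weil in a fixed positive characteristic

The library `Pool/Agent/R410/LW` counts the points of the schemes of finite type over `ℤ` of characteristic
zero. Here the same is done for domains of characteristic `p`, with values in all finite fields of
characteristic `p`; the number field is replaced by a finite field `L` (the field of constants).
Every task is an adaptation of one file of `R410/LW` (or of `T2h48/LZ`); the changes are described.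
-/

set_option autoImplicit false

namespace Pool.Agent.T2h48.LP

open Pool.Agent.R410.LW Polynomial

/-- For all nonzero multiples `t` of some `s ≠ 0`, the number of the points of `Spec A` with `t ≠ 0` with
values in the finite field `k` of characteristic `p` with `q` elements is `h q ^ d + O(q ^ (d - 1 / 2))`,
where `h` is the number of the homomorphisms from the finite field `L` to `k`. -/
def LandauP (p : ℕ) (A : Type) [CommRing A] (d : ℕ) (L : Type) [Field L] : Prop :=
  ∃ s : A, s ≠ 0 ∧ ∀ t : A, t ≠ 0 → s ∣ t → ∃ C : ℝ, 0 ≤ C ∧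
    ∀ (k : Type) [Field k] [Finite k] [CharP k p],
      |(Nat.card {φ : A →+* k // φ t ≠ 0} : ℝ) - Nat.card (L →+* k) * (Nat.card k : ℝ) ^ d| *
        √(Nat.card k : ℝ) ≤ C * (Nat.card k : ℝ) ^ d

/-- the resultant of `f` and `f'` is not zero -/
def Sep {R : Type} [CommRing R] (f : R[X][X]) : Prop :=
  ∃ (a b : R[X][X]) (D : R[X]), D ≠ 0 ∧ a * f + b * derivative f = C D

/-- **PIRR**. Proof. Let `g = u v` in `Ω[X][Y]` with `u, v` monic and not constant (`Monic.irreducible_iff...`).
There is `n` with `c ^ (p ^ n) ∈ K` for all (finitely many) coefficients `c` of `u` and `v`; so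
`u ^ (p ^ n)`, `v ^ (p ^ n)` are in `K[X][Y]` (`sum_pow_char_pow`, expand), their product is `g ^ (p ^ n)`. `g` is
prime in the unique factorization domain `K[X][Y]`, so `u ^ (p ^ n) = g ^ i` (monic divisor of a power of
a prime), `0 < i < p ^ n`. Let `π` be a prime factor of `u` in `Ω[X][Y]`. It divides `g`, and `π² ∤ g` (by
`Sep g`, mapped to `Ω`: if `π² ∣ g` then `π ∣ g'`, so `π ∣ C D`, but a monic-in-`Y` nonconstant polynomial does
not divide `C D ≠ 0`; take `π` monic), so the multiplicity of `π` in `g ^ i` is `i`, and in `u ^ (p ^ n)` it is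
a multiple of `p ^ n`, a contradiction. -/
def S_PIRR : Prop :=
  ∀ (p : ℕ) [Fact p.Prime] (K Om : Type) [Field K] [Field Om] [CharP K p] [Algebra K Om]
    [IsPurelyInseparable K Om] (g : K[X][X]), g.Monic → Irreducible g → Sep g →
      Irreducible (g.map (mapRingHom (algebraMap K Om)))

/-- **STR** (`R410/LW/Str.lean`, `structure_one`, with separability instead of characteristic zero; from
PIRR). Changes: the primitive element theorem holds for the separable extension `M / F(x)`; instead of
`Mb = AlgebraicClosure M` use `Ms = SeparableClosure M` (Galois over `M`), `Os = separableClosure F Ms` and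
`g = minpoly Os[X] θ`. An automorphism of `Ms` over `M` maps `Os` to `Os`, so as before the coefficients of `g`
are in `M`. `Sep g`: `g` divides the minimal polynomial of `θ` over `F(x)` (in `Os(X)[Y]`), which is separable,
so `g` is separable over the field of fractions of `Os[X]`; clear denominators (`R410/LW/Bez.lean`, `clear`).
At the end, let `Om` be the algebraic closure of `Os`, purely inseparable over `Os`, and apply PIRR. Then
`Sep f` for `f` with coefficients in `F₁` follows again from the separability over `F₁(X)`.) -/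
def S_STR : Prop :=
  ∀ (p : ℕ) [Fact p.Prime] (F M : Type) [Field F] [CharP F p] [Field M] [Algebra F M] (x : M),
    Transcendental F x → FiniteDimensional (IntermediateField.adjoin F {x}) M →
    Algebra.IsSeparable (IntermediateField.adjoin F {x}) M →
    ∃ (F₁ : IntermediateField F M) (_ : FiniteDimensional F F₁) (θ : M) (f : F₁[X][X])
      (Om : Type) (_ : Field Om) (_ : IsAlgClosed Om) (_ : Algebra F₁ Om), f.Monic ∧ 0 < f.natDegree ∧
      Irreducible (f.map (mapRingHom (algebraMap F₁ Om))) ∧ Sep f ∧
      (∀ p : F₁[X][X], eval₂ (eval₂RingHom (algebraMap F₁ M) x) θ p = 0 ↔ f ∣ p) ∧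
      IntermediateField.adjoin F {x, θ} = ⊤

/-- **STEP** (`R410/LW/Step.lean`, theorem `step`, and `R410/LW/Hom.lean`: the same proof, with `Sep f` instead
of `bezout`; `adj_domain`, `bn_poly`, `PW.weil`, `arith` hold in any characteristic. The number of the
homomorphisms `L →+* k` is at most `#L`: they are determined by the image of a generator of the
cyclic group `Lˣ`, a root of `T ^ (#L - 1) - 1`.) -/
def S_STEP : Prop :=
  ∀ (p : ℕ) [Fact p.Prime] (A : Type) [CommRing A] [IsDomain A] [Algebra.FiniteType ℤ A] (d : ℕ)
    (L : Type) [Field L] [Finite L], LandauP p A d L →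
    ∀ (k₀ kb : Type) [Field k₀] [Algebra A k₀] [IsFractionRing A k₀] [Field kb] [Algebra k₀ kb]
      [IsAlgClosed kb] (f : A[X][X]), f.Monic → 0 < f.natDegree → Sep f →
      Irreducible (f.map (mapRingHom ((algebraMap k₀ kb).comp (algebraMap A k₀)))) →
      LandauP p (AdjoinRoot f) (d + 1) L

/-- **BIR** (`R410/LW/Bir.lean`, theorem `transfer`: the same proof without `N`; `bir_card` and `pow_den` can be
used as they are.) -/
def S_BIR : Prop :=
  ∀ (p : ℕ) [Fact p.Prime] (A B M : Type) [CommRing A] [IsDomain A] [CommRing B] [IsDomain B] [Field M]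
    [Algebra A M] [IsFractionRing A M] [Algebra B M] [IsFractionRing B M] [Algebra.FiniteType ℤ A]
    [Algebra.FiniteType ℤ B] (d : ℕ) (L : Type) [Field L], LandauP p A d L → LandauP p B d L

/-- **SUB** (`R410/LW/Fg.lean`, `exists_sub`, with separability). `M` is a finitely generated field of
characteristic `p`, so it has a separating transcendence basis over the perfect field `ZMod p`
(`Mathlib/FieldTheory/SeparablyGenerated.lean`); `T` = all elements of it but one. -/
def S_SUB : Prop :=
  ∀ (p : ℕ) [Fact p.Prime] (M : Type) [Field M] [Algebra (ZMod p) M] (d : ℕ), FG M →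
    Algebra.trdeg (ZMod p) M = (d + 1 : ℕ) →
    ∃ (T : Finset M) (x : M), Transcendental (IntermediateField.adjoin (ZMod p) (T : Set M)) x ∧
      Algebra.IsAlgebraic (IntermediateField.adjoin
        (IntermediateField.adjoin (ZMod p) (T : Set M)) {x}) M ∧
      Algebra.IsSeparable (IntermediateField.adjoin
        (IntermediateField.adjoin (ZMod p) (T : Set M)) {x}) M

/-- **FGS** (`R410/LW/Fg.lean`, `fg_sub`, the same for `ZMod p` instead of `ℚ`) -/
def S_FGS : Prop :=
  ∀ (p : ℕ) [Fact p.Prime] (M : Type) [Field M] [Algebra (ZMod p) M] (T : Finset M)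
    (F : IntermediateField (ZMod p) M), F = IntermediateField.adjoin (ZMod p) (T : Set M) →
    ∀ (F₁ : IntermediateField F M) [FiniteDimensional F F₁], FG F₁

/-- **MAIN** (`R410/LW/Main.lean` and `LZ/T_LANDAU.lean`, from STR, STEP, BIR, SUB, FGS). Degree zero: `M` is
algebraic and finitely generated over `ZMod p`, so it is a finite field; `L = M`, and `LandauP p M 0 M` (with
`s = 1`, `C = 0`: a homomorphism of fields is injective), then BIR. -/
def S_MAIN : Prop :=
  ∀ (p : ℕ) [Fact p.Prime] (d : ℕ) (M : Type) [Field M] [Algebra (ZMod p) M], FG M →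
    Algebra.trdeg (ZMod p) M = d → ∃ (L : Type) (_ : Field L) (_ : Finite L), Nonempty (L →+* M) ∧
      ∀ (A : Type) [CommRing A] [IsDomain A] [Algebra.FiniteType ℤ A] [Algebra A M]
        [IsFractionRing A M], LandauP p A d L

/-- The function `ν` on finite fields of characteristic `p` is of the form `h q ^ d + O(q ^ (d - 1/2))`, with `h`
and `d` bounded, and is zero if `h = 0`. -/
def AsyP (p : ℕ) (ν : (k : Type) → [Field k] → [Finite k] → ℕ) : Prop :=
  ∃ C : ℕ, ∀ (k : Type) [Field k] [Finite k] [CharP k p],
    ∃ h d : ℕ, h ≤ C ∧ d ≤ C ∧ (h = 0 → ν k = 0) ∧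
      |(ν k : ℝ) - h * (Nat.card k : ℝ) ^ d| * √(Nat.card k : ℝ) ≤ C * (Nat.card k : ℝ) ^ d

/-- **ADD** (`LZ/T_ADD.lean`) -/
def S_ADD : Prop :=
  ∀ (p : ℕ) [Fact p.Prime] (ν μ : (k : Type) → [Field k] → [Finite k] → ℕ), AsyP p ν → AsyP p μ →
    AsyP p (fun k _ _ => ν k + μ k)

/-- **RING** (`LZ/T_RING.lean`, from MAIN and ADD; the prime ideals that do not contain `p` contribute `0`, and
for the others `A / I` has characteristic `p`. If `#(L →+* k) = 0` there is no `φ` with `φ (s * a) ≠ 0`: the
analogue of `exists_hom` for the finite field `L` instead of `𝓞 L` (a copy of its proof; `L` is a finitely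
generated ring)). -/
def S_RING : Prop :=
  ∀ (p : ℕ) [Fact p.Prime] (A : Type) [CommRing A] [Algebra.FiniteType ℤ A] (t : A),
    AsyP p (fun k _ _ => Nat.card {φ : A →+* k // φ t ≠ 0})

open Pool.Agent.T2h48.DW in
/-- **FORM** (`LZ/T_FORM.lean`, from RING and ADD, for formulas with coefficients in a finite field `F`). The
points of a cell with values in `K ⊇ F` are the `F`-algebra homomorphisms `φ : A → K` with `φ t ≠ 0`,
`A = F[x] / (S)`; the number of the ring homomorphisms `A → K` with `φ t ≠ 0` is `e` times as large, where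
`e = #(F →+* K) = [F : F_p]` does not depend on `K` (every `F →+* K` is the composition of `algebraMap F K` with
an automorphism of `K`). Hence the factor `e` below. -/
def S_FORM : Prop :=
  ∀ (F : Type) [Field F] [Finite F] (n : ℕ) (φ : QF F n), ∃ e C : ℕ, 1 ≤ e ∧
    ∀ (K : Type) [Field K] [Finite K] [Algebra F K], ∃ h d : ℕ, h ≤ C ∧ d ≤ C ∧
      (h = 0 → Nat.card {x : Fin n → K // φ.Holds x} = 0) ∧
      |((e * Nat.card {x : Fin n → K // φ.Holds x} : ℕ) : ℝ) - h * (Nat.card K : ℝ) ^ d| *
        √(Nat.card K : ℝ) ≤ C * (Nat.card K : ℝ) ^ d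

end Pool.Agent.T2h48.LP
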