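import Pool.Agent.T2h48.LP.Stm
import Pool.Agent.T2h48.LZ.T_ADD

set_option autoImplicit false
set_option linter.all false

namespace Pool.Agent.T2h48.LP

open Pool.Agent.T2h48.LZ (add_lt add_arith)

theorem t_ADD : S_ADD := by
  rintro p _ ν μ ⟨C1, g1⟩ ⟨C2, g2⟩
  refine ⟨2 * C1 + 2 * C2 , ?_⟩
  intro k _ _ _
  obtain ⟨h1, d1, hh1, hd1, hz1, b1⟩ := g1 k
  obtain ⟨h2, d2, hh2, hd2, hz2, b2⟩ := g2 k
  have hq : (1 : ℝ) ≤ Nat.card k := by
    have : 0 < Nat.card k := Nat.card_pos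
    exact_mod_cast this
  have hq0 : (0 : ℝ) ≤ Nat.card k := by linarith
  have hs : (0 : ℝ) ≤ √(Nat.card k : ℝ) := Real.sqrt_nonneg _
  have hs1 : (1 : ℝ) ≤ √(Nat.card k : ℝ) := by
    rw [Real.one_le_sqrt]
    exact hq
  have hsq : √(Nat.card k : ℝ) ^ 2 = (Nat.card k : ℝ) := Real.sq_sqrt hq0
  have hc1 : (0 : ℝ) ≤ C1 := Nat.cast_nonneg _
  have hc2 : (0 : ℝ) ≤ C2 := Nat.cast_nonneg _
  show ∃ h d : ℕ, h ≤ 2 * C1 + 2 * C2 ∧ d ≤ 2 * C1 + 2 * C2 ∧ (h = 0 → ν k + μ k = 0) ∧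
      |((ν k + μ k : ℕ) : ℝ) - h * (Nat.card k : ℝ) ^ d| * √(Nat.card k : ℝ) ≤
        ((2 * C1 + 2 * C2 : ℕ) : ℝ) * (Nat.card k : ℝ) ^ d
  rcases Nat.eq_zero_or_pos h1 with h10 | h1p
  · refine ⟨h2, d2, by omega, by omega, ?_, ?_⟩
    · intro h
      rw [hz1 h10, hz2 h]
    · rw [hz1 h10, zero_add]
      refine b2.trans (mul_le_mul_of_nonneg_right ?_ (by positivity))
      push_cast
      linarith
  rcases Nat.eq_zero_or_pos h2 with h20 | h2p
  · refine ⟨h1, d1, by omega, by omega, ?_, ?_⟩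
    · intro h
      omega
    · rw [hz2 h20, add_zero]
      refine b1.trans (mul_le_mul_of_nonneg_right ?_ (by positivity))
      push_cast
      linarith
  have hh1' : (h1 : ℝ) ≤ C1 := by exact_mod_cast hh1
  have hh2' : (h2 : ℝ) ≤ C2 := by exact_mod_cast hh2
  rcases lt_trichotomy d1 d2 with hd | hd | hd
  · refine ⟨h2, d2, by omega, by omega, fun h => by omega, ?_⟩
    have h3 := add_lt hd hq hs1 hsq (Nat.cast_nonneg h1) hh1' b2 b1
    push_cast
    rw [add_comm (ν k : ℝ)]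
    refine h3.trans (mul_le_mul_of_nonneg_right ?_ (by positivity))
    linarith
  · subst hd
    refine ⟨h1 + h2, d1, by omega, by omega, fun h => by omega, ?_⟩
    have h3 := add_arith (by positivity) (by positivity) hs b1 b2
    push_cast
    rw [← add_mul] at h3
    refine h3.trans ?_
    rw [← add_mul]
    refine mul_le_mul_of_nonneg_right ?_ (by positivity)
    linarith
  · refine ⟨h1, d1, by omega, by omega, fun h => by omega, ?_⟩
    have h3 := add_lt hd hq hs1 hsq (Nat.cast_nonneg h2) hh2' b1 b2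
    push_cast
    refine h3.trans (mul_le_mul_of_nonneg_right ?_ (by positivity))
    linarith

end Pool.Agent.T2h48.LP
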